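import Mathlib

/-!
# Elementary lemmas for the equation `(ka)^x + (kb)^y = (kc)^z`
-/

set_option autoImplicit false

namespace Pool.Agent.Q269.Jes

open Finset

/-- powers of an element which is not annihilated by `(p-1)/4` -/
theorem pow_modEq {p T : ℕ} [Fact p.Prime] {h : ZMod p} (h0 : h ≠ 0) (h4 : h ^ ((p - 1) / 4) ≠ 1)
    (hT : 2 ^ (T + 1) ∣ p - 1) {x z : ℕ} (e : h ^ x = h ^ z) : x ≡ z [MOD 2 ^ T] := by
  have key : ∀ n : ℕ, h ^ n = 1 → 2 ^ T ∣ n := by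
    intro n hn
    by_contra hcon
    apply h4
    have h1 : orderOf h ∣ n := orderOf_dvd_of_pow_eq_one hn
    have h2 : orderOf h ∣ p - 1 := orderOf_dvd_of_pow_eq_one (ZMod.pow_card_sub_one_eq_one h0)
    obtain ⟨m, hm⟩ := h2
    have h3 : 4 ∣ m := by
      by_contra h4m
      apply hcon
      refine dvd_trans ?_ h1
      have h5 : 2 ^ (T + 1) ∣ orderOf h * m := hm ▸ hT
      rcases Nat.even_or_odd m with ⟨m', hm'⟩ | ho
      · have ho' : Odd m' := by
          by_contra hc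
          rw [Nat.not_odd_iff_even] at hc
          obtain ⟨c, hc⟩ := hc
          apply h4m
          exact ⟨c, by omega⟩
        have h6 : 2 ^ T ∣ orderOf h * m' := by
          have : 2 * 2 ^ T ∣ 2 * (orderOf h * m') := by
            have e1 : 2 * (orderOf h * m') = orderOf h * m := by rw [hm']; ring
            rw [e1, ← pow_succ']
            exact h5
          exact Nat.dvd_of_mul_dvd_mul_left (by norm_num) this
        exact (Nat.Coprime.pow_left T (Nat.coprime_two_left.2 ho')).dvd_of_dvd_mul_right h6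
      · exact dvd_trans (pow_dvd_pow 2 (Nat.le_succ T))
          ((Nat.Coprime.pow_left _ (Nat.coprime_two_left.2 ho)).dvd_of_dvd_mul_right h5)
    obtain ⟨c, hc⟩ := h3
    have : (p - 1) / 4 = orderOf h * c := by
      rw [hm, hc, show orderOf h * (4 * c) = 4 * (orderOf h * c) by ring,
        Nat.mul_div_cancel_left _ (by norm_num)]
    rw [this, pow_mul, pow_orderOf_eq_one, one_pow]
  have key2 : ∀ a b : ℕ, a ≤ b → h ^ a = h ^ b → a ≡ b [MOD 2 ^ T] := by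
    intro a b hab e
    rw [Nat.modEq_iff_dvd' hab]
    apply key
    have : h ^ a * h ^ (b - a) = h ^ a * 1 := by
      rw [← pow_add, Nat.add_sub_cancel' hab, mul_one, e]
    exact mul_left_cancel₀ (pow_ne_zero _ h0) this
  rcases le_total x z with hxz | hxz
  · exact key2 x z hxz e
  · exact (key2 z x hxz e.symm).symm

/-- the geometric sum -/
def GS (u v : ℤ) (n : ℕ) : ℤ := ∑ i ∈ range n, u ^ i * v ^ (n - 1 - i)

theorem GS_mul (u v : ℤ) (n : ℕ) : GS u v n * (u - v) = u ^ n - v ^ n := geom_sum₂_mul u v n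

theorem GS_pow_dvd {u v : ℤ} {n : ℕ} (hn : Odd n) (hne : u ≠ v) {q : ℕ} (hq : q.Prime)
    (hqd : (q : ℤ) ∣ u - v) (hqu : ¬ (q : ℤ) ∣ u) {j : ℕ} (hj : (q : ℤ) ^ j ∣ GS u v n) :
    q ^ j ∣ n := by
  rcases hq.eq_two_or_odd' with rfl | ho
  · have hn2 : ¬ ((2 : ℕ) : ℤ) ∣ (n : ℤ) := by
      rw [Int.natCast_dvd_natCast]
      intro h
      rw [← Nat.not_even_iff_odd] at hn
      exact hn (even_iff_two_dvd.2 h)
    have h2 := not_dvd_geom_sum₂ (R := ℤ) (Nat.prime_iff_prime_int.1 hq) hqd hqu hn2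
    rcases Nat.eq_zero_or_pos j with rfl | hj0
    · simp
    · exact absurd ((dvd_pow_self _ hj0.ne').trans hj) h2
  · have h1 := Int.emultiplicity_pow_sub_pow hq ho hqd hqu n
    have hqi : Prime (q : ℤ) := Nat.prime_iff_prime_int.1 hq
    rw [← GS_mul, emultiplicity_mul hqi, add_comm] at h1
    have hfin : emultiplicity (q : ℤ) (u - v) ≠ ⊤ := by
      rw [← finiteMultiplicity_iff_emultiplicity_ne_top]
      exact Int.finiteMultiplicity_iff.2 ⟨by simpa using hq.ne_one, sub_ne_zero.2 hne⟩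
    have h2 : emultiplicity (q : ℤ) (GS u v n) = emultiplicity q n := by
      exact ENat.add_right_injective_of_ne_top hfin h1
    have h3 : (j : ℕ∞) ≤ emultiplicity (q : ℤ) (GS u v n) := le_emultiplicity_of_pow_dvd hj
    rw [h2] at h3
    exact pow_dvd_of_le_emultiplicity h3

theorem GS_dvd {u v : ℤ} {n : ℕ} (hn : Odd n) (hne : u ≠ v)
    (h : ∀ q : ℕ, q.Prime → (q : ℤ) ∣ GS u v n → (q : ℤ) ∣ u - v ∧ ¬ (q : ℤ) ∣ u) :
    (GS u v n).natAbs ∣ n := by
  rw [Nat.dvd_iff_prime_pow_dvd_dvd]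
  intro q j hq hj
  rcases Nat.eq_zero_or_pos j with rfl | hj0
  · simp
  · have h1 : (q : ℤ) ^ j ∣ GS u v n := by
      have := Int.natCast_dvd.2 hj
      exact_mod_cast this
    obtain ⟨h2, h3⟩ := h q hq ((dvd_pow_self _ hj0.ne').trans h1)
    exact GS_pow_dvd hn hne hq h2 h3 h1

/-- a primitive Pythagorean triple with even second leg -/
structure Tr (A B C : ℕ) : Prop where
  pyth : A ^ 2 + B ^ 2 = C ^ 2
  oddA : Odd A
  evB : 2 ∣ B
  oddC : Odd C
  cAB : A.Coprime B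
  cAC : A.Coprime C
  cBC : B.Coprime C
  A3 : 3 ≤ A
  B4 : 4 ≤ B

namespace Tr

variable {A B C : ℕ} (t : Tr A B C)
include t

theorem A_lt : A < C := by
  have := t.pyth
  have := t.B4
  nlinarith

theorem B_lt : B < C := by
  have := t.pyth
  have := t.A3
  nlinarith

theorem pythZ : (A : ℤ) ^ 2 + (B : ℤ) ^ 2 = (C : ℤ) ^ 2 := by exact_mod_cast t.pyth

end Tr

/-- no prime divides two coprime numbers -/
theorem not_dvd_pow {a b q : ℕ} (h : a.Coprime b) (hq : q.Prime) (hb : q ∣ b) (n : ℕ) :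
    ¬ (q : ℤ) ∣ (a : ℤ) ^ n := by
  intro h1
  have h2 : (q : ℤ) ∣ (a : ℤ) := (Nat.prime_iff_prime_int.1 hq).dvd_of_dvd_pow h1
  rw [Int.natCast_dvd_natCast] at h2
  exact hq.one_lt.ne' (Nat.eq_one_of_dvd_coprimes h h2 hb)

/-- if `S W² k = W ^ z` then the primes of `S` divide `W` -/
theorem prime_dvd_of {S : ℤ} {W k z q : ℕ} (hq : q.Prime) (h : S * (W : ℤ) ^ 2 * k = (W : ℤ) ^ z)
    (hS : (q : ℤ) ∣ S) : q ∣ W := by
  have h1 : (q : ℤ) ∣ (W : ℤ) ^ z := by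
    rw [← h]
    exact (hS.mul_right _).mul_right _
  have h2 : (q : ℤ) ∣ (W : ℤ) := (Nat.prime_iff_prime_int.1 hq).dvd_of_dvd_pow h1
  exact_mod_cast h2

theorem lt_pow_aux {a n : ℕ} (ha : 4 ≤ a) (hn : 2 ≤ n) : 2 * n < a ^ (2 * (n - 1)) := by
  obtain ⟨m, rfl⟩ := Nat.exists_eq_add_of_le hn
  have h1 : 4 ^ (2 * (2 + m - 1)) ≤ a ^ (2 * (2 + m - 1)) := Nat.pow_le_pow_left ha _
  have h2 : 2 * (2 + m) < 4 ^ (2 * (2 + m - 1)) := by
    have e : 2 * (2 + m - 1) = 2 * m + 2 := by omega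
    rw [e]
    clear h1 e
    induction m with
    | zero => norm_num
    | succ m ih =>
      have : 4 ^ (2 * (m + 1) + 2) = 16 * 4 ^ (2 * m + 2) := by
        rw [show 2 * (m + 1) + 2 = (2 * m + 2) + 2 by ring, pow_add]; ring
      rw [this]
      omega
  omega

variable {A B C k : ℕ}

/-- the case `x = y` -/
theorem caseI (t : Tr A B C) (hk : 0 < k) {X Z : ℕ} (hX : Odd X) (hZ : 0 < Z)
    (h : (k * A) ^ (2 * X) + (k * B) ^ (2 * X) = (k * C) ^ (2 * Z)) : X = 1 ∧ Z = 1 := by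
  have hA := t.A_lt
  have hB := t.B_lt
  have hp := t.pyth
  have hX0 : 0 < X := hX.pos
  have hC0 : 0 < C := by omega
  rcases le_or_gt X Z with hXZ | hXZ
  · obtain ⟨d, rfl⟩ := Nat.exists_eq_add_of_le hXZ
    have h1 : A ^ (2 * X) + B ^ (2 * X) = k ^ (2 * d) * C ^ (2 * (X + d)) := by
      have : k ^ (2 * X) * (A ^ (2 * X) + B ^ (2 * X)) =
          k ^ (2 * X) * (k ^ (2 * d) * C ^ (2 * (X + d))) := by
        calc _ = (k * A) ^ (2 * X) + (k * B) ^ (2 * X) := by rw [mul_pow, mul_pow]; ring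
          _ = (k * C) ^ (2 * (X + d)) := h
          _ = _ := by rw [mul_pow]; ring
      exact Nat.eq_of_mul_eq_mul_left (by positivity) this
    have h2 : C ^ (2 * (X + d)) ≤ A ^ (2 * X) + B ^ (2 * X) := by
      rw [h1]
      exact Nat.le_mul_of_pos_left _ (by positivity)
    have hX1 : X = 1 := by
      by_contra hX1
      obtain ⟨m, rfl⟩ := Nat.exists_eq_add_of_le (show 2 ≤ X by omega)
      have h3 : A ^ (2 * (2 + m)) < A ^ 2 * C ^ (2 * (1 + m)) := by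
        rw [show 2 * (2 + m) = 2 + 2 * (1 + m) by ring, pow_add]
        have := t.A3
        exact Nat.mul_lt_mul_of_pos_left (Nat.pow_lt_pow_left hA (by omega)) (by positivity)
      have h4 : B ^ (2 * (2 + m)) < B ^ 2 * C ^ (2 * (1 + m)) := by
        rw [show 2 * (2 + m) = 2 + 2 * (1 + m) by ring, pow_add]
        have := t.B4
        exact Nat.mul_lt_mul_of_pos_left (Nat.pow_lt_pow_left hB (by omega)) (by positivity)
      have h5 : C ^ (2 * (2 + m)) ≤ C ^ (2 * (2 + m + d)) :=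
        Nat.pow_le_pow_right hC0 (by omega)
      have h6 : C ^ (2 * (2 + m)) = A ^ 2 * C ^ (2 * (1 + m)) + B ^ 2 * C ^ (2 * (1 + m)) := by
        rw [← add_mul, hp, ← pow_add]
        congr 1
        ring
      omega
    subst hX1
    refine ⟨rfl, ?_⟩
    by_contra hd
    have h5 : C ^ (2 * 1 + 1) ≤ C ^ (2 * (1 + d)) := Nat.pow_le_pow_right hC0 (by omega)
    have h6 : C ^ (2 * 1 + 1) = C ^ 2 * C := by ring
    have h7 : C ^ 2 < C ^ 2 * C := by
      have : 1 < C := by have := t.A3; omega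
      exact lt_mul_of_one_lt_right (by positivity) this
    have h8 : A ^ (2 * 1) + B ^ (2 * 1) = C ^ 2 := by rw [mul_one]; exact hp
    rw [h6] at h5
    rw [h8] at h2
    exact absurd (h7.trans_le (h5.trans h2)) (lt_irrefl _)
  · exfalso
    obtain ⟨d, rfl⟩ := Nat.exists_eq_add_of_le hXZ.le
    have hd : 0 < d := by omega
    have h1 : k ^ (2 * d) * (A ^ (2 * (Z + d)) + B ^ (2 * (Z + d))) = C ^ (2 * Z) := by
      have : k ^ (2 * Z) * (k ^ (2 * d) * (A ^ (2 * (Z + d)) + B ^ (2 * (Z + d)))) =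
          k ^ (2 * Z) * C ^ (2 * Z) := by
        calc _ = (k * A) ^ (2 * (Z + d)) + (k * B) ^ (2 * (Z + d)) := by rw [mul_pow, mul_pow]; ring
          _ = (k * C) ^ (2 * Z) := h
          _ = _ := by rw [mul_pow]
      exact Nat.eq_of_mul_eq_mul_left (by positivity) this
    set n := Z + d with hn
    set S := GS ((A : ℤ) ^ 2) (-(B : ℤ) ^ 2) n with hS
    have h2 : S * (C : ℤ) ^ 2 = (A : ℤ) ^ (2 * n) + (B : ℤ) ^ (2 * n) := by
      have := GS_mul ((A : ℤ) ^ 2) (-(B : ℤ) ^ 2) n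
      rw [← hS, sub_neg_eq_add, t.pythZ, hX.neg_pow, sub_neg_eq_add, ← pow_mul, ← pow_mul] at this
      exact this
    have h3 : S * (C : ℤ) ^ 2 * ((k ^ (2 * d) : ℕ) : ℤ) = (C : ℤ) ^ (2 * Z) := by
      rw [h2, mul_comm]
      exact_mod_cast h1
    have h4 : S.natAbs ∣ n := by
      apply GS_dvd hX
      · have := t.A3
        have h5 : (0 : ℤ) < (A : ℤ) ^ 2 := by positivity
        have h6 : (0 : ℤ) ≤ (B : ℤ) ^ 2 := by positivity
        omega
      · intro q hq hqS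
        have h5 := prime_dvd_of hq h3 hqS
        refine ⟨?_, not_dvd_pow t.cAC hq h5 2⟩
        rw [sub_neg_eq_add, t.pythZ]
        exact (Int.natCast_dvd_natCast.2 h5).trans (dvd_pow_self _ two_ne_zero)
    have h5 : S.natAbs ≤ n := Nat.le_of_dvd hX0 h4
    have h6 : S ≤ n := by
      have := Int.le_natAbs (a := S)
      omega
    -- the size
    have h7 : (A : ℤ) ^ (2 * n) + (B : ℤ) ^ (2 * n) ≤ n * (C : ℤ) ^ 2 := by
      rw [← h2]
      exact mul_le_mul_of_nonneg_right h6 (by positivity)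
    have h7' : A ^ (2 * n) + B ^ (2 * n) ≤ n * C ^ 2 := by exact_mod_cast h7
    have hn2 : 2 ≤ n := by omega
    rcases le_total A B with hAB | hAB
    · have h8 := lt_pow_aux t.B4 hn2
      have h9 : C ^ 2 ≤ 2 * B ^ 2 := by
        have := Nat.pow_le_pow_left hAB 2
        omega
      have h10 : B ^ (2 * n) = B ^ (2 * (n - 1)) * B ^ 2 := by
        rw [← pow_add]
        congr 1
        omega
      have hB0 : 0 < B ^ 2 := by have := t.B4; positivity
      have h11 : 2 * n * B ^ 2 < B ^ (2 * (n - 1)) * B ^ 2 := Nat.mul_lt_mul_of_pos_right h8 hB0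
      have h12 : n * C ^ 2 ≤ n * (2 * B ^ 2) := Nat.mul_le_mul_left _ h9
      have h13 : n * (2 * B ^ 2) = 2 * n * B ^ 2 := by ring
      have h14 := Nat.zero_le (A ^ (2 * n))
      rw [← h10] at h11
      linarith
    · have hA4 : 4 ≤ A := t.B4.trans hAB
      have h8 := lt_pow_aux hA4 hn2
      have h9 : C ^ 2 ≤ 2 * A ^ 2 := by
        have := Nat.pow_le_pow_left hAB 2
        omega
      have h10 : A ^ (2 * n) = A ^ (2 * (n - 1)) * A ^ 2 := by
        rw [← pow_add]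
        congr 1
        omega
      have hA0 : 0 < A ^ 2 := by positivity
      have h11 : 2 * n * A ^ 2 < A ^ (2 * (n - 1)) * A ^ 2 := Nat.mul_lt_mul_of_pos_right h8 hA0
      have h12 : n * C ^ 2 ≤ n * (2 * A ^ 2) := Nat.mul_le_mul_left _ h9
      have h13 : n * (2 * A ^ 2) = 2 * n * A ^ 2 := by ring
      have h14 := Nat.zero_le (B ^ (2 * n))
      rw [← h10] at h11
      linarith

/-- the lower bound of the geometric sum -/
theorem GS_lower {a b n : ℕ} (hn : 0 < n) : (a : ℤ) ^ (2 * (n - 1)) ≤ GS ((a : ℤ) ^ 2) ((b : ℤ) ^ 2) n := by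
  unfold GS
  have h1 : (a : ℤ) ^ (2 * (n - 1)) = ((a : ℤ) ^ 2) ^ (n - 1) * ((b : ℤ) ^ 2) ^ (n - 1 - (n - 1)) := by
    rw [Nat.sub_self, pow_zero, mul_one, pow_mul]
  rw [h1]
  apply single_le_sum (f := fun i => ((a : ℤ) ^ 2) ^ i * ((b : ℤ) ^ 2) ^ (n - 1 - i))
    (fun i _ => by positivity)
  rw [mem_range]
  omega

/-- common part of the cases `x = z` and `y = z` -/
theorem no_case {a b W k n m : ℕ} (ha : 4 ≤ a) (hab : b < a) (hW : (a : ℤ) ^ 2 - (b : ℤ) ^ 2 = (W : ℤ) ^ 2)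
    (hco : a.Coprime W) (hn : Odd n) (hn2 : 2 ≤ n)
    (h : GS ((a : ℤ) ^ 2) ((b : ℤ) ^ 2) n * (W : ℤ) ^ 2 * k = (W : ℤ) ^ m) : False := by
  have h4 : (GS ((a : ℤ) ^ 2) ((b : ℤ) ^ 2) n).natAbs ∣ n := by
    apply GS_dvd hn
    · intro h5
      have h6 : a ^ 2 = b ^ 2 := by exact_mod_cast h5
      have := Nat.pow_lt_pow_left hab two_ne_zero
      omega
    · intro q hq hqS
      have h5 := prime_dvd_of hq h hqS
      refine ⟨?_, not_dvd_pow hco hq h5 2⟩
      rw [hW]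
      exact (Int.natCast_dvd_natCast.2 h5).trans (dvd_pow_self _ two_ne_zero)
  have h5 := Nat.le_of_dvd hn.pos h4
  have h6 := GS_lower (a := a) (b := b) hn.pos
  have h7 := lt_pow_aux ha hn2
  have h8 : ((a ^ (2 * (n - 1)) : ℕ) : ℤ) ≤ GS ((a : ℤ) ^ 2) ((b : ℤ) ^ 2) n := by
    push_cast
    exact h6
  omega

/-- the case `x = z` -/
theorem caseII (t : Tr A B C) (hk : 0 < k) {X Y : ℕ} (hX : Odd X) (hY : 0 < Y)
    (h : (k * A) ^ (2 * X) + (k * B) ^ (2 * Y) = (k * C) ^ (2 * X)) : X = 1 ∧ Y = 1 := by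
  have hA := t.A_lt
  have hB := t.B_lt
  have hX0 : 0 < X := hX.pos
  have hC4 : 4 ≤ C := by have := t.A3; omega
  have hW : (C : ℤ) ^ 2 - (A : ℤ) ^ 2 = (B : ℤ) ^ 2 := by have := t.pythZ; linarith
  have hS : GS ((C : ℤ) ^ 2) ((A : ℤ) ^ 2) X * (B : ℤ) ^ 2 = (C : ℤ) ^ (2 * X) - (A : ℤ) ^ (2 * X) := by
    rw [← hW, GS_mul, pow_mul, pow_mul]
  have hZ : ((k : ℤ) * A) ^ (2 * X) + ((k : ℤ) * B) ^ (2 * Y) = ((k : ℤ) * C) ^ (2 * X) := by
    exact_mod_cast h
  have hk0 : (k : ℤ) ≠ 0 := by exact_mod_cast hk.ne'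
  rcases le_or_gt X Y with hXY | hXY
  · obtain ⟨d, rfl⟩ := Nat.exists_eq_add_of_le hXY
    have h1 : GS ((C : ℤ) ^ 2) ((A : ℤ) ^ 2) X * (B : ℤ) ^ 2 = (k : ℤ) ^ (2 * d) * (B : ℤ) ^ (2 * (X + d)) := by
      have : (k : ℤ) ^ (2 * X) * (GS ((C : ℤ) ^ 2) ((A : ℤ) ^ 2) X * (B : ℤ) ^ 2) =
          (k : ℤ) ^ (2 * X) * ((k : ℤ) ^ (2 * d) * (B : ℤ) ^ (2 * (X + d))) := by
        rw [hS]
        rw [mul_pow, mul_pow, mul_pow] at hZ
        have e : (k : ℤ) ^ (2 * (X + d)) = (k : ℤ) ^ (2 * X) * (k : ℤ) ^ (2 * d) := by ring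
        rw [e] at hZ
        linear_combination -hZ
      exact mul_left_cancel₀ (pow_ne_zero _ hk0) this
    have hXd : X + d = 1 := by
      by_contra hcon
      obtain ⟨m, hm⟩ := Nat.exists_eq_add_of_le (show 2 ≤ X + d by omega)
      have hB0 : (B : ℤ) ≠ 0 := by have := t.B4; exact_mod_cast (by omega : B ≠ 0)
      have h2 : GS ((C : ℤ) ^ 2) ((A : ℤ) ^ 2) X = (k : ℤ) ^ (2 * d) * (B : ℤ) ^ (2 + 2 * m) := by
        have : (B : ℤ) ^ 2 * GS ((C : ℤ) ^ 2) ((A : ℤ) ^ 2) X =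
            (B : ℤ) ^ 2 * ((k : ℤ) ^ (2 * d) * (B : ℤ) ^ (2 + 2 * m)) := by
          rw [mul_comm, h1, hm]
          ring
        exact mul_left_cancel₀ (pow_ne_zero _ hB0) this
      have h3 : ((2 : ℕ) : ℤ) ^ 1 ∣ GS ((C : ℤ) ^ 2) ((A : ℤ) ^ 2) X := by
        rw [h2, pow_one]
        apply Dvd.dvd.mul_left
        exact (Int.natCast_dvd_natCast.2 t.evB).trans (dvd_pow_self _ (by omega))
      have h4 := GS_pow_dvd hX (by
        intro h5
        have h6 : C ^ 2 = A ^ 2 := by exact_mod_cast h5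
        have := Nat.pow_lt_pow_left hA two_ne_zero
        omega) Nat.prime_two (by
          rw [hW]
          exact (Int.natCast_dvd_natCast.2 t.evB).trans (dvd_pow_self _ two_ne_zero))
          (not_dvd_pow t.cBC.symm Nat.prime_two t.evB 2) h3
      rw [pow_one] at h4
      rw [← Nat.not_even_iff_odd] at hX
      exact hX (even_iff_two_dvd.2 h4)
    constructor <;> omega
  · exfalso
    obtain ⟨d, rfl⟩ := Nat.exists_eq_add_of_le hXY.le
    apply no_case (k := k ^ (2 * d)) (m := 2 * Y) hC4 hA hW t.cBC.symm hX (by omega)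
    rw [hS]
    push_cast
    have : (k : ℤ) ^ (2 * Y) * (((C : ℤ) ^ (2 * (Y + d)) - (A : ℤ) ^ (2 * (Y + d))) * (k : ℤ) ^ (2 * d)) =
        (k : ℤ) ^ (2 * Y) * (B : ℤ) ^ (2 * Y) := by
      rw [mul_pow, mul_pow, mul_pow] at hZ
      have e : (k : ℤ) ^ (2 * (Y + d)) = (k : ℤ) ^ (2 * Y) * (k : ℤ) ^ (2 * d) := by ring
      rw [e] at hZ
      linear_combination -hZ
    exact mul_left_cancel₀ (pow_ne_zero _ hk0) this

/-- the case `y = z` -/
theorem caseIII (t : Tr A B C) (hk : 0 < k) {X Y : ℕ} (hY : Odd Y) (hX : 0 < X)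
    (h : (k * A) ^ (2 * X) + (k * B) ^ (2 * Y) = (k * C) ^ (2 * Y)) : X = 1 ∧ Y = 1 := by
  have hA := t.A_lt
  have hB := t.B_lt
  have hY0 : 0 < Y := hY.pos
  have hC4 : 4 ≤ C := by have := t.A3; omega
  have hW : (C : ℤ) ^ 2 - (B : ℤ) ^ 2 = (A : ℤ) ^ 2 := by have := t.pythZ; linarith
  have hS : GS ((C : ℤ) ^ 2) ((B : ℤ) ^ 2) Y * (A : ℤ) ^ 2 = (C : ℤ) ^ (2 * Y) - (B : ℤ) ^ (2 * Y) := by
    rw [← hW, GS_mul, pow_mul, pow_mul]
  have hZ : ((k : ℤ) * A) ^ (2 * X) + ((k : ℤ) * B) ^ (2 * Y) = ((k : ℤ) * C) ^ (2 * Y) := by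
    exact_mod_cast h
  have hk0 : (k : ℤ) ≠ 0 := by exact_mod_cast hk.ne'
  rcases le_or_gt Y X with hXY | hXY
  · obtain ⟨d, rfl⟩ := Nat.exists_eq_add_of_le hXY
    have h1 : GS ((C : ℤ) ^ 2) ((B : ℤ) ^ 2) Y * (A : ℤ) ^ 2 = (k : ℤ) ^ (2 * d) * (A : ℤ) ^ (2 * (Y + d)) := by
      have : (k : ℤ) ^ (2 * Y) * (GS ((C : ℤ) ^ 2) ((B : ℤ) ^ 2) Y * (A : ℤ) ^ 2) =
          (k : ℤ) ^ (2 * Y) * ((k : ℤ) ^ (2 * d) * (A : ℤ) ^ (2 * (Y + d))) := by
        rw [hS]
        rw [mul_pow, mul_pow, mul_pow] at hZ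
        have e : (k : ℤ) ^ (2 * (Y + d)) = (k : ℤ) ^ (2 * Y) * (k : ℤ) ^ (2 * d) := by ring
        rw [e] at hZ
        linear_combination -hZ
      exact mul_left_cancel₀ (pow_ne_zero _ hk0) this
    have hXd : Y + d = 1 := by
      by_contra hcon
      obtain ⟨m, hm⟩ := Nat.exists_eq_add_of_le (show 2 ≤ Y + d by omega)
      have hA0 : (A : ℤ) ≠ 0 := by have := t.A3; exact_mod_cast (by omega : A ≠ 0)
      have h2 : GS ((C : ℤ) ^ 2) ((B : ℤ) ^ 2) Y = (k : ℤ) ^ (2 * d) * (A : ℤ) ^ (2 + 2 * m) := by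
        have : (A : ℤ) ^ 2 * GS ((C : ℤ) ^ 2) ((B : ℤ) ^ 2) Y =
            (A : ℤ) ^ 2 * ((k : ℤ) ^ (2 * d) * (A : ℤ) ^ (2 + 2 * m)) := by
          rw [mul_comm, h1, hm]
          ring
        exact mul_left_cancel₀ (pow_ne_zero _ hA0) this
      obtain ⟨q, hq, hqA⟩ := Nat.exists_prime_and_dvd (show A ≠ 1 by have := t.A3; omega)
      have h3 : (q : ℤ) ^ (2 + 2 * m) ∣ GS ((C : ℤ) ^ 2) ((B : ℤ) ^ 2) Y := by
        rw [h2]
        apply Dvd.dvd.mul_left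
        exact pow_dvd_pow_of_dvd (Int.natCast_dvd_natCast.2 hqA) _
      have h4 := GS_pow_dvd hY (by
        intro h5
        have h6 : C ^ 2 = B ^ 2 := by exact_mod_cast h5
        have := Nat.pow_lt_pow_left hB two_ne_zero
        omega) hq (by
          rw [hW]
          exact (Int.natCast_dvd_natCast.2 hqA).trans (dvd_pow_self _ two_ne_zero))
          (not_dvd_pow t.cAC.symm hq hqA 2) h3
      have h5 := Nat.le_of_dvd hY0 h4
      have h6 : 2 ^ (2 + 2 * m) ≤ q ^ (2 + 2 * m) := Nat.pow_le_pow_left hq.two_le _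
      have h7 : 2 + 2 * m < 2 ^ (2 + 2 * m) := Nat.lt_two_pow_self
      omega
    constructor <;> omega
  · exfalso
    obtain ⟨d, rfl⟩ := Nat.exists_eq_add_of_le hXY.le
    apply no_case (k := k ^ (2 * d)) (m := 2 * X) hC4 hB hW t.cAC.symm hY (by omega)
    rw [hS]
    push_cast
    have : (k : ℤ) ^ (2 * X) * (((C : ℤ) ^ (2 * (X + d)) - (B : ℤ) ^ (2 * (X + d))) * (k : ℤ) ^ (2 * d)) =
        (k : ℤ) ^ (2 * X) * (A : ℤ) ^ (2 * X) := by
      rw [mul_pow, mul_pow, mul_pow] at hZ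
      have e : (k : ℤ) ^ (2 * (X + d)) = (k : ℤ) ^ (2 * X) * (k : ℤ) ^ (2 * d) := by ring
      rw [e] at hZ
      linear_combination -hZ
    exact mul_left_cancel₀ (pow_ne_zero _ hk0) this

end Pool.Agent.Q269.Jes
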