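import Pool.Agent.Q269.Jes.Alg

/-!
# Local conditions for the equation `(ka)^x + (kb)^y = (kc)^z`
-/

set_option autoImplicit false

namespace Pool.Agent.Q269.Jes

/-- the local conditions on `(f, g)` -/
structure Loc (k E f g : ℕ) : Prop where
  l1 : ∃ p : ℕ, p.Prime ∧ p % 4 = 3 ∧ ¬ p ∣ k ∧ (f : ZMod p) = 0
  l2 : ∃ p : ℕ, p.Prime ∧ 2 ^ (2 * E + 3) ∣ p - 1 ∧ ¬ p ∣ k ∧ (g : ZMod p) = 0 ∧
    ((k : ZMod p) * (f : ZMod p) ^ 2) ^ ((p - 1) / 4) ≠ 1
  l3 : ∃ p : ℕ, p.Prime ∧ 2 ^ (2 * E + 3) ∣ p - 1 ∧ ¬ p ∣ k ∧ (f : ZMod p) = (g : ZMod p) ∧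
    (2 * (k : ZMod p) * (g : ZMod p) ^ 2) ^ ((p - 1) / 4) ≠ 1
  l4 : ∃ p : ℕ, p.Prime ∧ p % 8 = 5 ∧ ¬ p ∣ k ∧ (f : ZMod p) ^ 2 + (g : ZMod p) ^ 2 = 0
  l5 : ∀ q : ℕ, q.Prime → q ∣ k → ∀ n : ℕ, (n = f ^ 2 - g ^ 2 ∨ n = 2 * f * g ∨ n = f ^ 2 + g ^ 2) →
    ¬ q ^ 2 ^ (2 * E + 1) ∣ n
  l6 : ¬ 2 ^ (E + 1) ∣ f * g

theorem tr_of {f g A : ℕ} (hco : f.Coprime g) (hpar : (f + g) % 2 = 1) (hgf : g < f) (hg : 0 < g)
    (hA : A + g ^ 2 = f ^ 2) : Tr A (2 * f * g) (f ^ 2 + g ^ 2) := by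
  have hp : A ^ 2 + (2 * f * g) ^ 2 = (f ^ 2 + g ^ 2) ^ 2 := by
    have : (2 * f * g) ^ 2 = 4 * f ^ 2 * g ^ 2 := by ring
    rw [this, ← hA]
    ring
  have hoA : Odd A := by
    have h1 : Odd (f ^ 2 + g ^ 2) := by
      rw [Nat.odd_add, Nat.odd_pow_iff two_ne_zero, Nat.even_pow' two_ne_zero, ← Nat.odd_add,
        Nat.odd_iff]
      exact hpar
    rw [← hA] at h1
    have h2 : A + g ^ 2 + g ^ 2 = A + 2 * g ^ 2 := by ring
    rw [h2] at h1
    rcases Nat.even_or_odd A with h3 | h3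
    · exfalso
      have : Even (A + 2 * g ^ 2) := h3.add (even_two_mul _)
      rw [← Nat.not_even_iff_odd] at h1
      exact h1 this
    · exact h3
  have hoC : Odd (f ^ 2 + g ^ 2) := by
    rw [Nat.odd_add, Nat.odd_pow_iff two_ne_zero, Nat.even_pow' two_ne_zero, ← Nat.odd_add,
        Nat.odd_iff]
    exact hpar
  have hfg : ∀ q : ℕ, q.Prime → q ∣ f → q ∣ g → False := fun q hq h1 h2 =>
    hq.one_lt.ne' (Nat.eq_one_of_dvd_coprimes hco h1 h2)
  have cAB : A.Coprime (2 * f * g) := by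
    apply Nat.coprime_of_dvd
    intro q hq h1 h2
    rcases (hq.dvd_mul).1 h2 with h3 | h3
    · rcases (hq.dvd_mul).1 h3 with h4 | h4
      · have : q = 2 := (Nat.prime_dvd_prime_iff_eq hq Nat.prime_two).1 h4
        subst this
        rw [← Nat.not_even_iff_odd] at hoA
        exact hoA (even_iff_two_dvd.2 h1)
      · have h5 : q ∣ g ^ 2 := (Nat.dvd_add_right h1).1 (hA ▸ dvd_pow h4 two_ne_zero)
        exact hfg q hq h4 (hq.dvd_of_dvd_pow h5)
    · have h5 : q ∣ f ^ 2 := hA ▸ dvd_add h1 (dvd_pow h3 two_ne_zero)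
      exact hfg q hq (hq.dvd_of_dvd_pow h5) h3
  refine ⟨hp, hoA, ⟨f * g, by ring⟩, hoC, cAB, ?_, ?_, ?_, ?_⟩
  · apply Nat.coprime_of_dvd
    intro q hq h1 h2
    have h3 : q ∣ (2 * f * g) ^ 2 := by
      refine (Nat.dvd_add_right (dvd_pow h1 two_ne_zero)).1 ?_
      rw [hp]
      exact dvd_pow h2 two_ne_zero
    exact hq.one_lt.ne' (Nat.eq_one_of_dvd_coprimes cAB h1 (hq.dvd_of_dvd_pow h3))
  · apply Nat.coprime_of_dvd
    intro q hq h1 h2
    have h3 : q ∣ A ^ 2 := by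
      refine (Nat.dvd_add_left (dvd_pow h1 two_ne_zero)).1 ?_
      rw [hp]
      exact dvd_pow h2 two_ne_zero
    exact hq.one_lt.ne' (Nat.eq_one_of_dvd_coprimes cAB (hq.dvd_of_dvd_pow h3) h1)
  · obtain ⟨d, rfl⟩ := Nat.exists_eq_add_of_lt hgf
    nlinarith
  · nlinarith

section Steps

variable {k E f g A x y z : ℕ}

theorem castA (hA : A + g ^ 2 = f ^ 2) (p : ℕ) : (A : ZMod p) + (g : ZMod p) ^ 2 = (f : ZMod p) ^ 2 := by
  exact_mod_cast congrArg (Nat.cast : ℕ → ZMod p) hA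

theorem castE (h : (k * A) ^ x + (k * (2 * f * g)) ^ y = (k * (f ^ 2 + g ^ 2)) ^ z) (p : ℕ) :
    ((k : ZMod p) * (A : ZMod p)) ^ x + ((k : ZMod p) * (2 * (f : ZMod p) * (g : ZMod p))) ^ y =
      ((k : ZMod p) * ((f : ZMod p) ^ 2 + (g : ZMod p) ^ 2)) ^ z := by
  exact_mod_cast congrArg (Nat.cast : ℕ → ZMod p) h

theorem ne_of_co {p : ℕ} (hp : p.Prime) (hco : f.Coprime g) (hf : (f : ZMod p) = 0) :
    (g : ZMod p) ≠ 0 := by
  intro hg
  rw [ZMod.natCast_eq_zero_iff] at hf hg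
  exact hp.one_lt.ne' (Nat.eq_one_of_dvd_coprimes hco hf hg)

theorem step_xz (L : Loc k E f g) (hco : f.Coprime g) (hA : A + g ^ 2 = f ^ 2) (hy : 0 < y)
    (h : (k * A) ^ x + (k * (2 * f * g)) ^ y = (k * (f ^ 2 + g ^ 2)) ^ z) :
    x ≡ z [MOD 2 ^ (2 * E + 2)] := by
  obtain ⟨p, hp, hT, hk, hg, h4⟩ := L.l2
  have : Fact p.Prime := ⟨hp⟩
  have e1 := castA hA p
  have e2 := castE h p
  rw [hg, zero_pow two_ne_zero, add_zero] at e1
  rw [hg, e1, mul_zero, mul_zero, zero_pow hy.ne', zero_pow two_ne_zero, add_zero, add_zero] at e2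
  have hk0 : (k : ZMod p) ≠ 0 := by rwa [Ne, ZMod.natCast_eq_zero_iff]
  have hf0 : (f : ZMod p) ≠ 0 := fun hf => ne_of_co hp hco hf hg
  exact pow_modEq (mul_ne_zero hk0 (pow_ne_zero _ hf0)) h4 hT e2

theorem step_yz (L : Loc k E f g) (hco : f.Coprime g) (hA : A + g ^ 2 = f ^ 2) (hx : 0 < x)
    (h : (k * A) ^ x + (k * (2 * f * g)) ^ y = (k * (f ^ 2 + g ^ 2)) ^ z) :
    y ≡ z [MOD 2 ^ (2 * E + 2)] := by
  obtain ⟨p, hp, hT, hk, hg, h4⟩ := L.l3
  have : Fact p.Prime := ⟨hp⟩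
  have e1 := castA hA p
  have e2 := castE h p
  have hA0 : (A : ZMod p) = 0 := by
    rw [hg] at e1
    linear_combination e1
  rw [hg, hA0, mul_zero, zero_pow hx.ne', zero_add] at e2
  have hk0 : (k : ZMod p) ≠ 0 := by rwa [Ne, ZMod.natCast_eq_zero_iff]
  have hg0 : (g : ZMod p) ≠ 0 := fun h0 => ne_of_co hp hco (hg.trans h0) h0
  have h2 : (2 : ZMod p) ≠ 0 := by
    have h3 : p ≠ 2 := by
      rintro rfl
      have := Nat.le_of_dvd (by norm_num) hT
      have h5 : 2 ^ 1 < 2 ^ (2 * E + 3) := Nat.pow_lt_pow_right (by norm_num) (by omega)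
      omega
    intro h0
    have : ((2 : ℕ) : ZMod p) = 0 := by exact_mod_cast h0
    rw [ZMod.natCast_eq_zero_iff] at this
    exact h3 ((Nat.prime_dvd_prime_iff_eq hp Nat.prime_two).1 this)
  refine pow_modEq (mul_ne_zero (mul_ne_zero h2 hk0) (pow_ne_zero _ hg0)) h4 hT ?_
  have e3 : (k : ZMod p) * (2 * (g : ZMod p) * (g : ZMod p)) = 2 * (k : ZMod p) * (g : ZMod p) ^ 2 := by
    ring
  have e4 : (k : ZMod p) * ((g : ZMod p) ^ 2 + (g : ZMod p) ^ 2) = 2 * (k : ZMod p) * (g : ZMod p) ^ 2 := by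
    ring
  rw [e3, e4] at e2
  exact e2

theorem step_x (L : Loc k E f g) (hco : f.Coprime g) (hA : A + g ^ 2 = f ^ 2) (hy : 0 < y)
    (h : (k * A) ^ x + (k * (2 * f * g)) ^ y = (k * (f ^ 2 + g ^ 2)) ^ z)
    (hxz : x ≡ z [MOD 2 ^ (2 * E + 2)]) : Even x := by
  by_contra hx
  rw [Nat.not_even_iff_odd] at hx
  obtain ⟨p, hp, hp4, hk, hf⟩ := L.l1
  have : Fact p.Prime := ⟨hp⟩
  have e1 := castA hA p
  have e2 := castE h p
  have hA0 : (A : ZMod p) = -(g : ZMod p) ^ 2 := by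
    rw [hf] at e1
    linear_combination e1
  have hg0 := ne_of_co hp hco hf
  have hk0 : (k : ZMod p) ≠ 0 := by rwa [Ne, ZMod.natCast_eq_zero_iff]
  rw [hf, hA0, mul_zero, zero_mul, mul_zero, zero_pow hy.ne', add_zero, zero_pow two_ne_zero,
    zero_add, mul_neg, hx.neg_pow] at e2
  set u : ZMod p := (k : ZMod p) * (g : ZMod p) ^ 2 with hu
  have hu0 : u ≠ 0 := mul_ne_zero hk0 (pow_ne_zero _ hg0)
  have hxz2 : x ≡ z [MOD 2] := hxz.of_dvd (dvd_pow_self 2 (by omega))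
  obtain ⟨m, hm⟩ : ∃ m, x + z = 2 * m := by
    unfold Nat.ModEq at hxz2
    exact ⟨(x + z) / 2, by omega⟩
  have e3 : (u ^ m) ^ 2 = -(u ^ x) ^ 2 := by
    rw [← pow_mul, mul_comm m 2, ← hm, pow_add, ← e2]
    ring
  exact ZMod.mod_four_ne_three_of_sq_eq_neg_sq' (pow_ne_zero x hu0) e3 hp4

theorem step_X (L : Loc k E f g) (hco : f.Coprime g) (hA : A + g ^ 2 = f ^ 2) {X Y : ℕ} (hz : 0 < z)
    (h : (k * A) ^ (2 * X) + (k * (2 * f * g)) ^ (2 * Y) = (k * (f ^ 2 + g ^ 2)) ^ z)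
    (hxy : 2 * X ≡ 2 * Y [MOD 4]) : Odd X := by
  by_contra hX
  rw [Nat.not_odd_iff_even] at hX
  obtain ⟨p, hp, hp8, hk, hfg⟩ := L.l4
  have : Fact p.Prime := ⟨hp⟩
  have e1 := castA hA p
  have e2 := castE h p
  rw [hfg, mul_zero, zero_pow hz.ne'] at e2
  have hk0 : (k : ZMod p) ≠ 0 := by rwa [Ne, ZMod.natCast_eq_zero_iff]
  have h2 : (2 : ZMod p) ≠ 0 := by
    intro h0
    have : ((2 : ℕ) : ZMod p) = 0 := by exact_mod_cast h0
    rw [ZMod.natCast_eq_zero_iff, Nat.prime_dvd_prime_iff_eq hp Nat.prime_two] at this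
    omega
  have hg0 : (g : ZMod p) ≠ 0 := by
    intro h0
    rw [h0, zero_pow two_ne_zero, add_zero] at hfg
    exact ne_of_co hp hco (pow_eq_zero_iff two_ne_zero |>.1 hfg) h0
  have hf0 : (f : ZMod p) ≠ 0 := by
    intro h0
    rw [h0, zero_pow two_ne_zero, zero_add] at hfg
    exact hg0 (pow_eq_zero_iff two_ne_zero |>.1 hfg)
  set w : ZMod p := (k : ZMod p) * (2 * (f : ZMod p) * (g : ZMod p)) with hw
  have hw0 : w ≠ 0 := mul_ne_zero hk0 (mul_ne_zero (mul_ne_zero h2 hf0) hg0)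
  have e3 : ((k : ZMod p) * (A : ZMod p)) ^ 2 = -w ^ 2 := by
    rw [hw]
    have e5 : (A : ZMod p) = (f : ZMod p) ^ 2 - (g : ZMod p) ^ 2 := by linear_combination e1
    rw [e5]
    linear_combination (k : ZMod p) ^ 2 * ((f : ZMod p) ^ 2 + (g : ZMod p) ^ 2) * hfg
  rw [pow_mul, e3, hX.neg_pow, ← pow_mul] at e2
  -- w ^ (2X) + w ^ (2Y) = 0
  have hm : (p - 1) / 4 * 4 = p - 1 := by omega
  have hmo : Odd ((p - 1) / 4) := by
    rw [Nat.odd_iff]
    omega
  have e6 : (w ^ (2 * X)) ^ ((p - 1) / 4) = -(w ^ (2 * Y)) ^ ((p - 1) / 4) := by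
    rw [← hmo.neg_pow]
    congr 1
    linear_combination e2
  have key : ∀ a b : ℕ, a ≡ b [MOD 4] → (w ^ a) ^ ((p - 1) / 4) = (w ^ b) ^ ((p - 1) / 4) := by
    have key1 : ∀ a j : ℕ, (w ^ (a + 4 * j)) ^ ((p - 1) / 4) = (w ^ a) ^ ((p - 1) / 4) := by
      intro a j
      rw [pow_add, mul_pow, ← pow_mul w (4 * j)]
      have : 4 * j * ((p - 1) / 4) = (p - 1) * j := by
        calc 4 * j * ((p - 1) / 4) = (p - 1) / 4 * 4 * j := by ring
          _ = _ := by rw [hm]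
      rw [this, pow_mul, ZMod.pow_card_sub_one_eq_one hw0, one_pow, mul_one]
    intro a b hab
    unfold Nat.ModEq at hab
    rcases le_total a b with h1 | h1
    · have : b = a + 4 * ((b - a) / 4) := by omega
      rw [this, key1]
    · have : a = b + 4 * ((a - b) / 4) := by omega
      rw [this, key1]
  rw [key _ _ hxy] at e6
  have e7 : 2 * (w ^ (2 * Y)) ^ ((p - 1) / 4) = 0 := by linear_combination e6
  rcases mul_eq_zero.1 e7 with h0 | h0
  · exact h2 h0
  · exact (pow_ne_zero _ (pow_ne_zero _ hw0)) h0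

end Steps

/-- two of the three valuations are equal -/
theorem tri {q P Q R : ℕ} [hq : Fact q.Prime] (hP : P ≠ 0) (hQ : Q ≠ 0) (h : P + Q = R) :
    padicValNat q P = padicValNat q Q ∨ padicValNat q P = padicValNat q R ∨
      padicValNat q Q = padicValNat q R := by
  have hR : R ≠ 0 := by omega
  have key : ∀ P Q : ℕ, P ≠ 0 → Q ≠ 0 → P + Q = R → padicValNat q P < padicValNat q Q →
      padicValNat q P = padicValNat q R := by
    intro P Q hP hQ h hlt
    apply le_antisymm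
    · rw [← padicValNat_dvd_iff_le hR, ← h]
      apply dvd_add
      · rw [padicValNat_dvd_iff_le hP]
      · rw [padicValNat_dvd_iff_le hQ]
        exact hlt.le
    · by_contra hcon
      push Not at hcon
      have h1 : q ^ (padicValNat q P + 1) ∣ R := by
        rw [padicValNat_dvd_iff_le hR]
        exact hcon
      have h2 : q ^ (padicValNat q P + 1) ∣ Q := by
        rw [padicValNat_dvd_iff_le hQ]
        exact hlt
      have h3 : q ^ (padicValNat q P + 1) ∣ P := (Nat.dvd_add_left h2).1 (h ▸ h1)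
      rw [padicValNat_dvd_iff_le hP] at h3
      omega
  rcases lt_trichotomy (padicValNat q P) (padicValNat q Q) with h1 | h1 | h1
  · exact Or.inr (Or.inl (key P Q hP hQ h h1))
  · exact Or.inl h1
  · exact Or.inr (Or.inr (key Q P hQ hP (by omega) h1))

theorem eq_of_val {κ a b x y T : ℕ} (hκ : 0 < κ) (hab : a = 0 ∨ b = 0)
    (ha : a < 2 ^ T) (hb : b < 2 ^ T) (hx : x % 4 = 2) (hy : y % 4 = 2)
    (hxy : x ≡ y [MOD 2 ^ (T + 1)]) (h : x * (κ + a) = y * (κ + b)) : x = y := by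
  have key : ∀ a x y : ℕ, a < 2 ^ T → x % 4 = 2 → x ≡ y [MOD 2 ^ (T + 1)] → x * (κ + a) = y * κ →
      x = y := by
    intro a x y ha hx hxy h
    rcases Nat.eq_zero_or_pos a with rfl | ha0
    · rw [add_zero] at h
      exact Nat.eq_of_mul_eq_mul_right hκ h
    · exfalso
      have hlt : x < y := by
        by_contra hcon
        push Not at hcon
        have h1 : y * κ ≤ x * κ := Nat.mul_le_mul_right _ hcon
        have h2 : x * (κ + a) = x * κ + x * a := by ring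
        have h3 : 0 < x * a := Nat.mul_pos (by omega) ha0
        omega
      have h1 : 2 ^ (T + 1) ∣ y - x := (Nat.modEq_iff_dvd' hlt.le).1 hxy
      have h2 : (y - x) * κ = x * a := by
        rw [Nat.sub_mul]
        have h2 : x * (κ + a) = x * κ + x * a := by ring
        omega
      have h3 : 2 ^ (T + 1) ∣ x * a := h2 ▸ h1.mul_right κ
      obtain ⟨X, hX⟩ : ∃ X, x = 2 * X := ⟨x / 2, by omega⟩
      have hXo : Odd X := by rw [Nat.odd_iff]; omega
      have h4 : 2 ^ T ∣ X * a := by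
        have : 2 * 2 ^ T ∣ 2 * (X * a) := by
          rw [← pow_succ', ← mul_assoc, ← hX]
          exact h3
        exact Nat.dvd_of_mul_dvd_mul_left (by norm_num) this
      have h5 : 2 ^ T ∣ a :=
        (Nat.Coprime.pow_left T (Nat.coprime_two_left.2 hXo)).dvd_of_dvd_mul_left h4
      have := Nat.le_of_dvd ha0 h5
      omega
  rcases hab with rfl | rfl
  · exact (key b y x hb hy hxy.symm (by rw [← h, add_zero])).symm
  · exact key a x y ha hx hxy (by rw [h, add_zero])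

theorem pow_cong {C X Z T : ℕ} (hC : Odd C) (h : X ≡ Z [MOD 2 ^ T]) :
    C ^ X ≡ C ^ Z [MOD 2 ^ (T + 1)] := by
  have hco : C.Coprime (2 ^ (T + 1)) := (Nat.coprime_two_right.2 hC).pow_right _
  have h1 : C ^ (2 ^ T) ≡ 1 [MOD 2 ^ (T + 1)] := by
    have := Nat.ModEq.pow_totient hco
    rwa [Nat.totient_prime_pow_succ Nat.prime_two, show 2 - 1 = 1 by norm_num, mul_one] at this
  have key : ∀ a b : ℕ, a ≤ b → a ≡ b [MOD 2 ^ T] → C ^ a ≡ C ^ b [MOD 2 ^ (T + 1)] := by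
    intro a b hab hm
    obtain ⟨j, hj⟩ := (Nat.modEq_iff_dvd' hab).1 hm
    have : b = a + 2 ^ T * j := by omega
    rw [this, pow_add C a, pow_mul C]
    have h2 := (h1.pow j).mul_left (C ^ a)
    rw [one_pow, mul_one] at h2
    exact h2.symm
  rcases le_total X Z with h2 | h2
  · exact key X Z h2 h
  · exact (key Z X h2 h.symm).symm

theorem two_pow_unique {i j : ℕ} {m n : ℤ} (hm : Odd m) (hn : Odd n) (h : 2 ^ i * m = 2 ^ j * n) :
    i = j := by
  have key : ∀ (i j : ℕ) (m n : ℤ), Odd m → Odd n → 2 ^ i * m = 2 ^ j * n → i < j → False := by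
    intro i j m n hm _ h hij
    obtain ⟨d, rfl⟩ := Nat.exists_eq_add_of_lt hij
    have h1 : m = 2 * (2 ^ d * n) := by
      have : (2 : ℤ) ^ i * m = 2 ^ i * (2 * (2 ^ d * n)) := by
        rw [h]
        ring
      exact mul_left_cancel₀ (by positivity) this
    rw [← Int.not_even_iff_odd] at hm
    exact hm (h1 ▸ even_two_mul _)
  rcases lt_trichotomy i j with h1 | h1 | h1
  · exact (key i j m n hm hn h h1).elim
  · exact h1
  · exact (key j i n m hn hm h.symm h1).elim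

/-- the 2-adic argument -/
theorem two_adic {A' C : ℤ} {Cn e X Z : ℕ} (hCn : C = Cn) {h' o : ℤ} (he : 1 ≤ e) (hh : Odd h')
    (ho : Odd o) (h1 : C - A' = 2 * (2 ^ e * h') ^ 2) (h2 : C + A' = 2 * o ^ 2) (hX : Odd X)
    (hCo : Odd C) (hXZ : X ≡ Z [MOD 2 ^ (2 * e + 1)]) :
    ∃ m : ℤ, Odd m ∧ (C ^ Z - A' ^ X) * (C ^ Z + A' ^ X) = 2 ^ (2 * e + 2) * m := by
  have hGo : Odd (GS C A' X) := by
    rw [← Int.not_even_iff_odd]
    intro hE
    have hd : (2 : ℤ) ∣ C - A' := ⟨_, h1⟩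
    have hC2 : ¬ (2 : ℤ) ∣ C := by
      rw [← even_iff_two_dvd, Int.not_even_iff_odd]
      exact hCo
    have hX2 : ¬ (2 : ℤ) ∣ (X : ℤ) := by
      rw [← even_iff_two_dvd, Int.not_even_iff_odd]
      exact_mod_cast hX
    exact not_dvd_geom_sum₂ Int.prime_two hd hC2 hX2 (even_iff_two_dvd.1 hE)
  have h3 : C ^ X - A' ^ X = 2 ^ (2 * e + 1) * (h' ^ 2 * GS C A' X) := by
    rw [← GS_mul, h1]
    ring
  have hCno : Odd Cn := by
    rw [hCn] at hCo
    exact_mod_cast hCo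
  obtain ⟨c, hc⟩ : ∃ c : ℤ, C ^ Z - C ^ X = 2 ^ (2 * e + 2) * c := by
    have h4 := pow_cong (T := 2 * e + 1) hCno hXZ
    have h5 := (Nat.modEq_iff_dvd.1 h4)
    push_cast at h5
    rw [← hCn] at h5
    exact h5
  have h4 : C ^ Z - A' ^ X = 2 ^ (2 * e + 1) * (h' ^ 2 * GS C A' X + 2 * c) := by
    calc C ^ Z - A' ^ X = (C ^ Z - C ^ X) + (C ^ X - A' ^ X) := by ring
      _ = _ := by rw [hc, h3]; ring
  have h5 : C ^ Z + A' ^ X = 2 * (C ^ Z - 2 ^ (2 * e) * (h' ^ 2 * GS C A' X + 2 * c)) := by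
    calc C ^ Z + A' ^ X = 2 * C ^ Z - (C ^ Z - A' ^ X) := by ring
      _ = _ := by rw [h4]; ring
  refine ⟨(h' ^ 2 * GS C A' X + 2 * c) * (C ^ Z - 2 ^ (2 * e) * (h' ^ 2 * GS C A' X + 2 * c)), ?_, ?_⟩
  · apply Odd.mul
    · exact ((hh.pow).mul hGo).add_even (even_two_mul _)
    · apply (hCo.pow).sub_even
      obtain ⟨e', rfl⟩ := Nat.exists_eq_add_of_le he
      have : (2 : ℤ) ^ (2 * (1 + e')) = 2 * 2 ^ (2 * e' + 1) := by ring
      rw [this, mul_assoc]
      exact even_two_mul _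
  · rw [h4, h5]
    ring

/-- the case `y = 2` -/
theorem case_y2 {A B C X Z : ℕ} (t : Tr A B C) (hX : Odd X) (hZ : 0 < Z)
    (h : A ^ (2 * X) + B ^ 2 = C ^ (2 * Z)) : X = 1 ∧ Z = 1 := by
  have hA := t.A_lt
  have hB := t.B_lt
  have hp := t.pyth
  have hC0 : 0 < C := by omega
  have hCZ : C ≤ C ^ Z := Nat.le_self_pow hZ.ne' C
  have hX1 : X = 1 := by
    by_contra hX1
    have hX3 : 3 ≤ X := by
      rw [Nat.odd_iff] at hX
      omega
    obtain ⟨V, hV⟩ := Nat.exists_eq_add_of_lt (hB.trans_le hCZ)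
    -- C ^ Z = B + V + 1
    have hV1 : C ^ Z = B + (V + 1) := by omega
    have hUV : (2 * B + (V + 1)) * (V + 1) = A ^ (2 * X) := by
      have h1 : C ^ (2 * Z) = (C ^ Z) ^ 2 := by rw [mul_comm, pow_mul]
      rw [h1, hV1] at h
      nlinarith
    have hVo : (2 * B + (V + 1)).Coprime (V + 1) := by
      apply Nat.coprime_of_dvd
      intro q hq h1 h2
      have h3 : q ∣ 2 * B := (Nat.dvd_add_left h2).1 h1
      have h4 : q ∣ A ^ (2 * X) := hUV ▸ (h1.mul_right _)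
      have h5 : q ∣ A := hq.dvd_of_dvd_pow h4
      rcases (hq.dvd_mul).1 h3 with h6 | h6
      · have : q = 2 := (Nat.prime_dvd_prime_iff_eq hq Nat.prime_two).1 h6
        subst this
        have := t.oddA
        rw [← Nat.not_even_iff_odd] at this
        exact this (even_iff_two_dvd.2 h5)
      · exact hq.one_lt.ne' (Nat.eq_one_of_dvd_coprimes t.cAB h5 h6)
    obtain ⟨r, hr⟩ := exists_eq_pow_of_mul_eq_pow (by
      rw [gcd_eq_nat_gcd]
      exact Nat.isUnit_iff.2 hVo) hUV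
    obtain ⟨s, hs⟩ := exists_eq_pow_of_mul_eq_pow (by
      rw [gcd_eq_nat_gcd]
      exact Nat.isUnit_iff.2 hVo.symm) ((mul_comm _ _).trans hUV)
    have hrs : r * s = A := by
      have : (r * s) ^ (2 * X) = A ^ (2 * X) := by rw [mul_pow, ← hr, ← hs, hUV]
      exact Nat.pow_left_injective (by omega) this
    have hB4 := t.B4
    have hsr : s < r := by
      by_contra hcon
      push Not at hcon
      have := Nat.pow_le_pow_left hcon (2 * X)
      omega
    -- r ^ (2X) = 2B + s ^ (2X)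
    have h1 : r ^ (2 * X) = 2 * B + s ^ (2 * X) := by omega
    obtain ⟨m, hm⟩ := Nat.exists_eq_add_of_le hX3
    have h2 : s ^ (2 * X) ≤ (r - 1) * r ^ (2 * X - 1) := by
      have : 2 * X = 1 + (2 * X - 1) := by omega
      calc s ^ (2 * X) = s * s ^ (2 * X - 1) := by
            conv_lhs => rw [this]
            rw [pow_add, pow_one]
        _ ≤ _ := Nat.mul_le_mul (by omega) (Nat.pow_le_pow_left hsr.le _)
    have h3 : r ^ (2 * X) = (r - 1) * r ^ (2 * X - 1) + r ^ (2 * X - 1) := by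
      have e1 : 2 * X = 1 + (2 * X - 1) := by omega
      have e2 : r = (r - 1) + 1 := by omega
      calc r ^ (2 * X) = r * r ^ (2 * X - 1) := by
            conv_lhs => rw [e1]
            rw [pow_add, pow_one]
        _ = ((r - 1) + 1) * r ^ (2 * X - 1) := by rw [← e2]
        _ = _ := by ring
    have h4 : r ^ 4 ≤ r ^ (2 * X - 1) := Nat.pow_le_pow_right (by omega) (by omega)
    have h5 : A < r ^ 2 := by
      rw [← hrs, pow_two]
      exact Nat.mul_lt_mul_of_pos_left hsr (by omega)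
    have h6 : A ^ 2 < r ^ 4 := by
      calc A ^ 2 < (r ^ 2) ^ 2 := Nat.pow_lt_pow_left h5 two_ne_zero
        _ = r ^ 4 := by ring
    have h7 : 2 * B < A ^ 2 := by
      obtain ⟨c, hc⟩ := Nat.exists_eq_add_of_lt hB
      rw [hc] at hp
      nlinarith
    omega
  subst hX1
  refine ⟨rfl, ?_⟩
  rw [mul_one, hp] at h
  have h8 : 2 = 2 * Z := Nat.pow_right_injective (by have := t.A3; omega : 2 ≤ C) h
  omega

/-- **the conclusion for the pairs with the local conditions** -/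
theorem main_arith {k E f g A x y z : ℕ} (hk : 0 < k) (hco : f.Coprime g) (hpar : (f + g) % 2 = 1)
    (hgf : g < f) (hg : 0 < g) (hA : A + g ^ 2 = f ^ 2) (L : Loc k E f g) (hx : 0 < x) (hy : 0 < y)
    (hz : 0 < z) (h : (k * A) ^ x + (k * (2 * f * g)) ^ y = (k * (f ^ 2 + g ^ 2)) ^ z) :
    x = 2 ∧ y = 2 ∧ z = 2 := by
  have t := tr_of hco hpar hgf hg hA
  have hxz := step_xz L hco hA hy h
  have hyz := step_yz L hco hA hx h
  have hxe := step_x L hco hA hy h hxz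
  have h4 : 4 ∣ 2 ^ (2 * E + 2) := ⟨2 ^ (2 * E), by ring⟩
  have hxz4 : x ≡ z [MOD 4] := hxz.of_dvd h4
  have hyz4 : y ≡ z [MOD 4] := hyz.of_dvd h4
  have hxy4 := hxz4.trans hyz4.symm
  obtain ⟨X, rfl⟩ := even_iff_two_dvd.1 hxe
  obtain ⟨Z, rfl⟩ : 2 ∣ z := by
    unfold Nat.ModEq at hxz4
    omega
  obtain ⟨Y, rfl⟩ : 2 ∣ y := by
    unfold Nat.ModEq at hyz4
    omega
  have hX := step_X L hco hA hz h hxy4
  have hXm : (2 * X) % 4 = 2 := by rw [Nat.odd_iff] at hX; omega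
  have hZm : (2 * Z) % 4 = 2 := by unfold Nat.ModEq at hxz4; omega
  have hYm : (2 * Y) % 4 = 2 := by unfold Nat.ModEq at hyz4; omega
  have hZ : Odd Z := by rw [Nat.odd_iff]; omega
  have hY : Odd Y := by rw [Nat.odd_iff]; omega
  have hAe : A = f ^ 2 - g ^ 2 := by omega
  have eqs : (X = Y ∨ X = Z ∨ Y = Z) → 2 * X = 2 ∧ 2 * Y = 2 ∧ 2 * Z = 2 := by
    rintro (rfl | rfl | rfl)
    · obtain ⟨h1, h2⟩ := caseI t hk hX hZ.pos h
      omega
    · obtain ⟨h1, h2⟩ := caseII t hk hX hY.pos h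
      omega
    · obtain ⟨h1, h2⟩ := caseIII t hk hY hX.pos h
      omega
  rcases Nat.eq_or_lt_of_le (show 1 ≤ k from hk) with hk1 | hk1
  · -- k = 1
    subst hk1
    rw [one_mul, one_mul, one_mul] at h
    -- e = the exponent of 2 in f g
    have hfg0 : f * g ≠ 0 := Nat.mul_ne_zero (by omega) (by omega)
    obtain ⟨e, w, hw, hfge⟩ := Nat.exists_eq_two_pow_mul_odd hfg0
    have he1 : 1 ≤ e := by
      by_contra hcon
      have : e = 0 := by omega
      subst this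
      rw [pow_zero, one_mul] at hfge
      rw [← hfge, Nat.odd_mul] at hw
      have h1 := Nat.odd_iff.1 hw.1
      have h2 := Nat.odd_iff.1 hw.2
      omega
    have heE : e ≤ E := by
      by_contra hcon
      push Not at hcon
      exact L.l6 ((pow_dvd_pow 2 hcon).trans ⟨w, hfge⟩)
    have hXZ : X ≡ Z [MOD 2 ^ (2 * e + 1)] := by
      have h1 : 2 * X ≡ 2 * Z [MOD 2 * 2 ^ (2 * E + 1)] := by
        have : 2 ^ (2 * E + 2) = 2 * 2 ^ (2 * E + 1) := by ring
        rw [← this]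
        exact hxz
      have h2 : X ≡ Z [MOD 2 ^ (2 * E + 1)] := Nat.ModEq.mul_left_cancel' (by norm_num) h1
      exact h2.of_dvd (pow_dvd_pow 2 (by omega))
    have hCo : Odd (((f ^ 2 + g ^ 2 : ℕ) : ℤ)) := by exact_mod_cast t.oddC
    have hAZ : (A : ℤ) = (f : ℤ) ^ 2 - (g : ℤ) ^ 2 := by
      have : ((A + g ^ 2 : ℕ) : ℤ) = ((f ^ 2 : ℕ) : ℤ) := by rw [hA]
      push_cast at this
      linarith
    have hmain : ∃ m : ℤ, Odd m ∧ ((((f ^ 2 + g ^ 2 : ℕ) : ℤ)) ^ Z) ^ 2 - ((A : ℤ) ^ X) ^ 2 =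
        2 ^ (2 * e + 2) * m := by
      rcases Nat.even_or_odd f with hf | hf
      · have hgo : Odd g := by
          rw [Nat.odd_iff]
          rw [Nat.even_iff] at hf
          omega
        -- f = 2 ^ e f'
        obtain ⟨e', f', hf', hfe⟩ := Nat.exists_eq_two_pow_mul_odd (show f ≠ 0 by omega)
        have hee : e' = e := by
          apply two_pow_unique (m := ((f' * g : ℕ) : ℤ)) (n := (w : ℤ))
          · exact_mod_cast hf'.mul hgo
          · exact_mod_cast hw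
          · have : f * g = 2 ^ e' * (f' * g) := by rw [hfe]; ring
            rw [this] at hfge
            exact_mod_cast hfge
        subst hee
        obtain ⟨m, hm, h1⟩ := two_adic (A' := -(A : ℤ)) (C := ((f ^ 2 + g ^ 2 : ℕ) : ℤ)) rfl he1
          (h' := (f' : ℤ)) (o := (g : ℤ)) (by exact_mod_cast hf') (by exact_mod_cast hgo)
          (by
            push_cast
            rw [hAZ]
            have : (f : ℤ) = 2 ^ e' * f' := by exact_mod_cast hfe
            rw [this]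
            ring) (by
            push_cast
            rw [hAZ]
            ring) hX hCo hXZ
        refine ⟨m, hm, ?_⟩
        rw [← h1, hX.neg_pow]
        ring
      · have hge : Even g := by
          rw [Nat.even_iff]
          rw [Nat.odd_iff] at hf
          omega
        obtain ⟨e', g', hg', hgee⟩ := Nat.exists_eq_two_pow_mul_odd (show g ≠ 0 by omega)
        have hee : e' = e := by
          apply two_pow_unique (m := ((f * g' : ℕ) : ℤ)) (n := (w : ℤ))
          · exact_mod_cast hf.mul hg'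
          · exact_mod_cast hw
          · have : f * g = 2 ^ e' * (f * g') := by
              conv_lhs => rw [hgee]
              ring
            rw [this] at hfge
            exact_mod_cast hfge
        subst hee
        obtain ⟨m, hm, h1⟩ := two_adic (A' := (A : ℤ)) (C := ((f ^ 2 + g ^ 2 : ℕ) : ℤ)) rfl he1
          (h' := (g' : ℤ)) (o := (f : ℤ)) (by exact_mod_cast hg') (by exact_mod_cast hf)
          (by
            push_cast
            rw [hAZ]
            have : (g : ℤ) = 2 ^ e' * g' := by exact_mod_cast hgee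
            rw [this]
            ring) (by
            push_cast
            rw [hAZ]
            ring) hX hCo hXZ
        refine ⟨m, hm, ?_⟩
        rw [← h1]
        ring
    obtain ⟨m, hm, hm2⟩ := hmain
    have hYe : Y = 1 := by
      have h1 : (2 : ℤ) ^ ((e + 1) * (2 * Y)) * (w : ℤ) ^ (2 * Y) = 2 ^ (2 * e + 2) * m := by
        rw [← hm2]
        have h2 : ((A : ℤ)) ^ (2 * X) + ((2 * f * g : ℕ) : ℤ) ^ (2 * Y) =
            ((f ^ 2 + g ^ 2 : ℕ) : ℤ) ^ (2 * Z) := by exact_mod_cast h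
        have h3 : ((2 * f * g : ℕ) : ℤ) = 2 ^ (e + 1) * (w : ℤ) := by
          have : 2 * f * g = 2 ^ (e + 1) * w := by rw [mul_assoc, hfge]; ring
          exact_mod_cast this
        rw [h3] at h2
        rw [← pow_mul, ← pow_mul, mul_comm Z 2, mul_comm X 2, ← h2, mul_pow, ← pow_mul]
        ring
      have h2 := two_pow_unique (by exact_mod_cast hw.pow) hm h1
      have h3 : (e + 1) * (2 * Y) = (e + 1) * 2 := by rw [h2]; ring
      have h4 := Nat.eq_of_mul_eq_mul_left (by omega) h3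
      omega
    subst hYe
    rw [mul_one] at h
    obtain ⟨h1, h2⟩ := case_y2 t hX hZ.pos h
    omega
  · -- k > 1
    apply eqs
    obtain ⟨q, hq, hqk⟩ := Nat.exists_prime_and_dvd (show k ≠ 1 by omega)
    have : Fact q.Prime := ⟨hq⟩
    have hA0 : A ≠ 0 := by have := t.A3; omega
    have hB0 : 2 * f * g ≠ 0 := by have := t.B4; omega
    have hC0 : f ^ 2 + g ^ 2 ≠ 0 := by have := t.A_lt; omega
    have hk0 : k ≠ 0 := by omega
    have hv : ∀ n m : ℕ, n ≠ 0 → padicValNat q ((k * n) ^ m) =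
        m * (padicValNat q k + padicValNat q n) := by
      intro n m hn
      rw [padicValNat.pow, padicValNat.mul hk0 hn]
    have hκ : 0 < padicValNat q k := by
      have := (padicValNat_dvd_iff_le (p := q) (n := 1) hk0).1 (by rwa [pow_one])
      omega
    have hsm : ∀ n : ℕ, n ≠ 0 → ¬ q ^ 2 ^ (2 * E + 1) ∣ n → padicValNat q n < 2 ^ (2 * E + 1) := by
      intro n hn h1
      rw [padicValNat_dvd_iff_le hn] at h1
      omega
    have hzero : ∀ n m : ℕ, n.Coprime m → padicValNat q n = 0 ∨ padicValNat q m = 0 := by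
      intro n m hnm
      by_cases h1 : q ∣ n
      · right
        apply padicValNat.eq_zero_of_not_dvd
        intro h2
        exact hq.one_lt.ne' (Nat.eq_one_of_dvd_coprimes hnm h1 h2)
      · left
        exact padicValNat.eq_zero_of_not_dvd h1
    have sA := hsm A hA0 (L.l5 q hq hqk A (Or.inl hAe))
    have sB := hsm _ hB0 (L.l5 q hq hqk _ (Or.inr (Or.inl rfl)))
    have sC := hsm _ hC0 (L.l5 q hq hqk _ (Or.inr (Or.inr rfl)))
    have hxy : 2 * X ≡ 2 * Y [MOD 2 ^ (2 * E + 2)] := hxz.trans hyz.symm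
    have htri := tri (q := q) (pow_ne_zero _ (mul_ne_zero hk0 hA0)) (pow_ne_zero _ (mul_ne_zero hk0 hB0)) h
    rw [hv _ _ hA0, hv _ _ hB0, hv _ _ hC0] at htri
    rcases htri with h1 | h1 | h1
    · left
      have := eq_of_val (T := 2 * E + 1) hκ (hzero _ _ t.cAB) sA sB hXm hYm hxy h1
      omega
    · right; left
      have := eq_of_val (T := 2 * E + 1) hκ (hzero _ _ t.cAC) sA sC hXm hZm hxz h1
      omega
    · right; right
      have := eq_of_val (T := 2 * E + 1) hκ (hzero _ _ t.cBC) sB sC hYm hZm hyz h1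
      omega

end Pool.Agent.Q269.Jes
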