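import Pool.Agent.Q269.Jes.Sieve
import Pool.Agent.Q269.Jes.Arith

/-!
# The local conditions hold for almost all pairs
-/

set_option autoImplicit false

namespace Pool.Agent.Q269.Jes

open Pool.Agent.H374R2.Beal Polynomial

theorem card_good {p : ℕ} [Fact p.Prime] {c : ZMod p} (hc : c ≠ 0) (h4 : 4 ∣ p - 1) :
    (1 / 2 : ℝ) * p ≤ ({u : ZMod p | (c * u ^ 2) ^ ((p - 1) / 4) ≠ 1}.ncard : ℝ) := by
  classical
  have hp : p.Prime := Fact.out
  set m := (p - 1) / 4 with hm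
  have hm0 : 0 < m := by have := hp.two_le; omega
  have h1 : {u : ZMod p | (c * u ^ 2) ^ m = 1} ⊆
      ((nthRoots (2 * m) ((c ^ m)⁻¹)).toFinset : Set (ZMod p)) := by
    intro u hu
    rw [Set.mem_ofPred_eq] at hu
    rw [Finset.mem_coe, Multiset.mem_toFinset, mem_nthRoots (by omega)]
    rw [mul_pow, ← pow_mul] at hu
    exact eq_inv_of_mul_eq_one_right hu
  have h2 : {u : ZMod p | (c * u ^ 2) ^ m = 1}.ncard ≤ 2 * m := by
    refine (Set.ncard_le_ncard h1 (Finset.finite_toSet _)).trans ?_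
    rw [Set.ncard_coe_finset]
    exact (Multiset.toFinset_card_le _).trans (card_nthRoots _ _)
  have h3 : {u : ZMod p | (c * u ^ 2) ^ m ≠ 1} = {u : ZMod p | (c * u ^ 2) ^ m = 1}ᶜ := by
    ext u
    simp
  have h4' : {u : ZMod p | (c * u ^ 2) ^ m = 1}.ncard +
      {u : ZMod p | (c * u ^ 2) ^ m = 1}ᶜ.ncard = p := by
    rw [Set.ncard_add_ncard_compl, Nat.card_eq_fintype_card, ZMod.card]
  rw [h3]
  have h5 : p ≤ 2 * {u : ZMod p | (c * u ^ 2) ^ m = 1}ᶜ.ncard := by omega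
  have h6 : (p : ℝ) ≤ 2 * ({u : ZMod p | (c * u ^ 2) ^ m = 1}ᶜ.ncard : ℝ) := by exact_mod_cast h5
  linarith

theorem not_dvd_of_lt {k p : ℕ} (hk : 0 < k) (h : k < p) : ¬ p ∣ k := fun h1 => by
  have := Nat.le_of_dvd hk h1
  omega

theorem null1 {k : ℕ} (hk : 0 < k) : UniformNull {w : ℕ × ℕ | ¬ ∃ p : ℕ, p.Prime ∧ p % 4 = 3 ∧
    ¬ p ∣ k ∧ (w.1 : ZMod p) = 0} := by
  have hu : IsUnit (3 : ZMod 4) := by decide
  refine (null_gen {r : ℕ | r.Prime ∧ (r : ZMod 4) = 3 ∧ k < r} (fun r hr => hr.1) (div_ap hu k)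
    (fun r => {w | w.1 = 0}) 1 one_pos ?_).mono ?_
  · intro r hr
    have hr1 : r.Prime := hr.1
    have : NeZero r := ⟨hr1.ne_zero⟩
    have h1 : Set.ncard {w : ZMod r × ZMod r | w.1 = 0} = r := by
      have : {w : ZMod r × ZMod r | w.1 = 0} = (fun v : ZMod r => ((0 : ZMod r), v)) '' Set.univ := by
        ext ⟨u, v⟩
        simp [eq_comm]
      rw [this, Set.ncard_image_of_injective _ (fun a b h => (Prod.mk.inj h).2), Set.ncard_univ,
        Nat.card_eq_fintype_card, ZMod.card]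
    rw [h1, one_mul]
  · rintro ⟨f, g⟩ h r ⟨hr, hr4, hkr⟩ h0
    apply h
    refine ⟨r, hr, ?_, not_dvd_of_lt hk hkr, h0⟩
    have : ((r : ℕ) : ZMod 4) = ((3 : ℕ) : ZMod 4) := by exact_mod_cast hr4
    rw [ZMod.natCast_eq_natCast_iff'] at this
    exact this

theorem dvd_sub_one {r M : ℕ} (hr : r.Prime) (h : (r : ZMod M) = 1) : M ∣ r - 1 := by
  have : ((r : ℕ) : ZMod M) = ((1 : ℕ) : ZMod M) := by rw [h, Nat.cast_one]
  rw [ZMod.natCast_eq_natCast_iff] at this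
  exact (Nat.modEq_iff_dvd' hr.one_lt.le).1 this.symm

theorem four_dvd {E r : ℕ} (h : 2 ^ (2 * E + 3) ∣ r - 1) : 4 ∣ r - 1 :=
  (show (4 : ℕ) ∣ 2 ^ (2 * E + 3) from ⟨2 ^ (2 * E + 1), by ring⟩).trans h

theorem null2 {k : ℕ} (hk : 0 < k) (E : ℕ) : UniformNull {w : ℕ × ℕ | ¬ ∃ p : ℕ, p.Prime ∧
    2 ^ (2 * E + 3) ∣ p - 1 ∧ ¬ p ∣ k ∧ (w.2 : ZMod p) = 0 ∧
    ((k : ZMod p) * (w.1 : ZMod p) ^ 2) ^ ((p - 1) / 4) ≠ 1} := by
  have hN : NeZero (2 ^ (2 * E + 3)) := ⟨by positivity⟩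
  refine (null_gen {r : ℕ | r.Prime ∧ (r : ZMod (2 ^ (2 * E + 3))) = 1 ∧ k < r} (fun r hr => hr.1)
    (div_ap isUnit_one k)
    (fun r => {w | w.2 = 0 ∧ ((k : ZMod r) * w.1 ^ 2) ^ ((r - 1) / 4) ≠ 1}) (1 / 2) (by norm_num)
      ?_).mono ?_
  · rintro r ⟨hr, hr1, hkr⟩
    have : Fact r.Prime := ⟨hr⟩
    have hk0 : (k : ZMod r) ≠ 0 := by
      rw [Ne, ZMod.natCast_eq_zero_iff]
      exact not_dvd_of_lt hk hkr
    have h1 := card_good hk0 (four_dvd (dvd_sub_one hr hr1))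
    have h2 : {w : ZMod r × ZMod r | w.2 = 0 ∧ ((k : ZMod r) * w.1 ^ 2) ^ ((r - 1) / 4) ≠ 1} =
        (fun u : ZMod r => (u, (0 : ZMod r))) ''
          {u : ZMod r | ((k : ZMod r) * u ^ 2) ^ ((r - 1) / 4) ≠ 1} := by
      ext ⟨u, v⟩
      simp only [Set.mem_ofPred_eq, Set.mem_image, Prod.mk.injEq]
      constructor
      · rintro ⟨h3, h4⟩
        exact ⟨u, h4, rfl, h3.symm⟩
      · rintro ⟨u', h3, h4, h5⟩
        subst h4
        exact ⟨h5.symm, h3⟩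
    rw [h2, Set.ncard_image_of_injective _ (fun a b h => (Prod.mk.inj h).1)]
    exact h1
  · rintro ⟨f, g⟩ h r ⟨hr, hr4, hkr⟩ ⟨h0, h1⟩
    exact h ⟨r, hr, dvd_sub_one hr hr4, not_dvd_of_lt hk hkr, h0, h1⟩

theorem null3 {k : ℕ} (hk : 0 < k) (E : ℕ) : UniformNull {w : ℕ × ℕ | ¬ ∃ p : ℕ, p.Prime ∧
    2 ^ (2 * E + 3) ∣ p - 1 ∧ ¬ p ∣ k ∧ (w.1 : ZMod p) = (w.2 : ZMod p) ∧
    (2 * (k : ZMod p) * (w.2 : ZMod p) ^ 2) ^ ((p - 1) / 4) ≠ 1} := by
  have hN : NeZero (2 ^ (2 * E + 3)) := ⟨by positivity⟩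
  refine (null_gen {r : ℕ | r.Prime ∧ (r : ZMod (2 ^ (2 * E + 3))) = 1 ∧ k < r} (fun r hr => hr.1)
    (div_ap isUnit_one k)
    (fun r => {w | w.1 = w.2 ∧ (2 * (k : ZMod r) * w.2 ^ 2) ^ ((r - 1) / 4) ≠ 1}) (1 / 2)
      (by norm_num) ?_).mono ?_
  · rintro r ⟨hr, hr1, hkr⟩
    have : Fact r.Prime := ⟨hr⟩
    have hk0 : (k : ZMod r) ≠ 0 := by
      rw [Ne, ZMod.natCast_eq_zero_iff]
      exact not_dvd_of_lt hk hkr
    have h20 : (2 : ZMod r) ≠ 0 := by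
      intro h0
      have h3 : ((2 : ℕ) : ZMod r) = 0 := by exact_mod_cast h0
      rw [ZMod.natCast_eq_zero_iff, Nat.prime_dvd_prime_iff_eq hr Nat.prime_two] at h3
      subst h3
      have := Nat.le_of_dvd (by norm_num) (four_dvd (dvd_sub_one hr hr1))
      omega
    have h1 := card_good (mul_ne_zero h20 hk0) (four_dvd (dvd_sub_one hr hr1))
    have h2 : {w : ZMod r × ZMod r | w.1 = w.2 ∧ (2 * (k : ZMod r) * w.2 ^ 2) ^ ((r - 1) / 4) ≠ 1} =
        (fun u : ZMod r => (u, u)) ''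
          {u : ZMod r | (2 * (k : ZMod r) * u ^ 2) ^ ((r - 1) / 4) ≠ 1} := by
      ext ⟨u, v⟩
      simp only [Set.mem_ofPred_eq, Set.mem_image, Prod.mk.injEq]
      constructor
      · rintro ⟨h3, h4⟩
        exact ⟨v, h4, h3.symm, rfl⟩
      · rintro ⟨u', h3, h4, h5⟩
        subst h4
        subst h5
        exact ⟨rfl, h3⟩
    rw [h2, Set.ncard_image_of_injective _ (fun a b h => (Prod.mk.inj h).1)]
    exact h1
  · rintro ⟨f, g⟩ h r ⟨hr, hr4, hkr⟩ ⟨h0, h1⟩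
    exact h ⟨r, hr, dvd_sub_one hr hr4, not_dvd_of_lt hk hkr, h0, h1⟩

theorem null4 {k : ℕ} (hk : 0 < k) : UniformNull {w : ℕ × ℕ | ¬ ∃ p : ℕ, p.Prime ∧ p % 8 = 5 ∧
    ¬ p ∣ k ∧ (w.1 : ZMod p) ^ 2 + (w.2 : ZMod p) ^ 2 = 0} := by
  have hu : IsUnit (5 : ZMod 8) := by decide
  have h8 : ∀ r : ℕ, (r : ZMod 8) = 5 → r % 8 = 5 := by
    intro r hr
    have : ((r : ℕ) : ZMod 8) = ((5 : ℕ) : ZMod 8) := by exact_mod_cast hr
    rw [ZMod.natCast_eq_natCast_iff'] at this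
    exact this
  refine (null_gen {r : ℕ | r.Prime ∧ (r : ZMod 8) = 5 ∧ k < r} (fun r hr => hr.1) (div_ap hu k)
    (fun r => {w | w.1 ^ 2 + w.2 ^ 2 = 0}) 1 one_pos ?_).mono ?_
  · rintro r ⟨hr, hr1, hkr⟩
    have : Fact r.Prime := ⟨hr⟩
    have hr8 := h8 r hr1
    obtain ⟨i, hi⟩ : IsSquare (-1 : ZMod r) := by
      rw [ZMod.exists_sq_eq_neg_one_iff]
      omega
    have h1 : ((fun u : ZMod r => (i * u, u)) '' Set.univ).ncard = r := by
      rw [Set.ncard_image_of_injective _ (fun a b h => (Prod.mk.inj h).2), Set.ncard_univ,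
        Nat.card_eq_fintype_card, ZMod.card]
    have h2 : (fun u : ZMod r => (i * u, u)) '' Set.univ ⊆
        {w : ZMod r × ZMod r | w.1 ^ 2 + w.2 ^ 2 = 0} := by
      rintro _ ⟨u, -, rfl⟩
      simp only [Set.mem_ofPred_eq]
      linear_combination -u ^ 2 * hi
    have h3 := Set.ncard_le_ncard h2 (Set.toFinite _)
    rw [h1] at h3
    rw [one_mul]
    exact_mod_cast h3
  · rintro ⟨f, g⟩ h r ⟨hr, hr4, hkr⟩ h0
    exact h ⟨r, hr, h8 r hr4, not_dvd_of_lt hk hkr, h0⟩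

/-- the square box -/
def Bx (N : ℕ) : Set (ℕ × ℕ) := Set.Ioc 0 N ×ˢ Set.Ioc 0 N

theorem Bx_finite (N : ℕ) : (Bx N).Finite := (Set.finite_Ioc _ _).prod (Set.finite_Ioc _ _)

theorem Bx_eq (N : ℕ) : Bx N = Set.Ioc 0 (0 + N) ×ˢ Set.Ioc 0 (0 + N) := by rw [zero_add]; rfl

theorem class_box {M : ℕ} (hM : 0 < M) {S : Set (ℕ × ℕ)} {B : Finset (ZMod M × ZMod M)}
    (hB : B.card ≤ 2 * M) (hS : ∀ w ∈ S, ((w.1 : ZMod M), (w.2 : ZMod M)) ∈ B) {N : ℕ}
    (hN : M ≤ N) : ((S ∩ Bx N).ncard : ℝ) ≤ 8 / M * (N : ℝ) ^ 2 := by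
  have h1 := box_le M hM B S hS N N 0 0
  rw [← Bx_eq] at h1
  have hMR : (0 : ℝ) < M := by exact_mod_cast hM
  have h2 : (((N / M + 1 : ℕ)) : ℝ) ≤ 2 * N / M := by
    have h3 : ((N / M : ℕ) : ℝ) ≤ N / M := Nat.cast_div_le
    have h4 : (1 : ℝ) ≤ N / M := by
      rw [le_div_iff₀ hMR, one_mul]; exact_mod_cast hN
    push_cast
    have : (2 : ℝ) * N / M = N / M + N / M := by ring
    linarith
  have h3 : (B.card : ℝ) ≤ 2 * M := by exact_mod_cast hB
  calc ((S ∩ Bx N).ncard : ℝ) ≤ ((B.card * ((N / M + 1) * (N / M + 1)) : ℕ) : ℝ) := by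
        exact_mod_cast h1
    _ = (B.card : ℝ) * ((((N / M + 1 : ℕ)) : ℝ) * (((N / M + 1 : ℕ)) : ℝ)) := by push_cast; ring
    _ ≤ (2 * M) * ((2 * N / M) * (2 * N / M)) := by
        apply mul_le_mul h3 _ (by positivity) (by positivity)
        exact mul_le_mul h2 h2 (by positivity) (by positivity)
    _ = _ := by
        field_simp
        ring

theorem line_box {M : ℕ} (hM : 0 < M) {S : Set (ℕ × ℕ)} (φ : ZMod M → ZMod M × ZMod M)
    (hS : ∀ w ∈ S, ∃ u, φ u = ((w.1 : ZMod M), (w.2 : ZMod M))) {N : ℕ}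
    (hN : M ≤ N) : ((S ∩ Bx N).ncard : ℝ) ≤ 8 / M * (N : ℝ) ^ 2 := by
  classical
  have : NeZero M := ⟨hM.ne'⟩
  apply class_box hM (B := Finset.univ.image φ) _ _ hN
  · refine Finset.card_image_le.trans ?_
    rw [Finset.card_univ, ZMod.card]
    omega
  · intro w hw
    obtain ⟨u, hu⟩ := hS w hw
    rw [Finset.mem_image]
    exact ⟨u, Finset.mem_univ _, hu⟩

/-- the sum of two squares -/
theorem sq_box {q n : ℕ} (hq : q.Prime) (hq2 : q ≠ 2) {N : ℕ} (hN : q ^ n ≤ N) :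
    (({w : ℕ × ℕ | w.1.Coprime w.2 ∧ q ^ n ∣ w.1 ^ 2 + w.2 ^ 2} ∩ Bx N).ncard : ℝ) ≤
      8 / (q ^ n : ℕ) * (N : ℝ) ^ 2 := by
  classical
  have hM : 0 < q ^ n := pow_pos hq.pos n
  have : NeZero (q ^ n) := ⟨hM.ne'⟩
  rcases Nat.eq_zero_or_pos n with rfl | hn
  · apply line_box hM (fun u => (u, u)) _ hN
    rintro w -
    refine ⟨0, ?_⟩
    have : Subsingleton (ZMod (q ^ 0)) := by
      rw [pow_zero]
      infer_instance
    exact Subsingleton.elim _ _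
  let B : Finset (ZMod (q ^ n) × ZMod (q ^ n)) := Finset.univ.filter (fun p =>
    ∃ f g : ℕ, ¬ q ∣ f ∧ q ^ n ∣ f ^ 2 + g ^ 2 ∧ (f : ZMod (q ^ n)) = p.1 ∧ (g : ZMod (q ^ n)) = p.2)
  apply class_box hM (B := B) _ _ hN
  · have h1 : B.card ≤ 2 * (Finset.univ : Finset (ZMod (q ^ n))).card := by
      apply Finset.card_le_mul_card_image_of_maps_to (f := Prod.snd) (fun _ _ => Finset.mem_univ _)
      intro b _
      rcases (Finset.filter (fun a => a.2 = b) B).eq_empty_or_nonempty with h0 | ⟨⟨u0, v0⟩, h0⟩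
      · rw [h0]; simp
      · rw [Finset.mem_filter] at h0
        obtain ⟨h0, h0b⟩ := h0
        simp only [B, Finset.mem_filter, Finset.mem_univ, true_and] at h0
        obtain ⟨f0, g0, hf0, hd0, hu0, hv0⟩ := h0
        have h2 : Finset.filter (fun a => a.2 = b) B ⊆ {(u0, b), (-u0, b)} := by
          rintro ⟨u, v⟩ h3
          rw [Finset.mem_filter] at h3
          obtain ⟨h3, h3b⟩ := h3
          simp only [B, Finset.mem_filter, Finset.mem_univ, true_and] at h3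
          obtain ⟨f, g, hf, hd, hu, hv⟩ := h3
          simp only at h3b h0b
          subst h3b
          have e1 : ((q ^ n : ℕ) : ℤ) ∣ ((f : ℤ) - f0) * ((f : ℤ) + f0) := by
            have e2 : ((q ^ n : ℕ) : ℤ) ∣ (f : ℤ) ^ 2 + (g : ℤ) ^ 2 := by exact_mod_cast hd
            have e3 : ((q ^ n : ℕ) : ℤ) ∣ (f0 : ℤ) ^ 2 + (g0 : ℤ) ^ 2 := by exact_mod_cast hd0
            have e4 : ((q ^ n : ℕ) : ℤ) ∣ (g : ℤ) - g0 := by
              rw [← ZMod.intCast_eq_intCast_iff_dvd_sub]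
              push_cast
              rw [hv, hv0, h0b]
            have e5 : ((f : ℤ) - f0) * ((f : ℤ) + f0) = ((f : ℤ) ^ 2 + (g : ℤ) ^ 2) -
              ((f0 : ℤ) ^ 2 + (g0 : ℤ) ^ 2) - ((g : ℤ) - g0) * ((g : ℤ) + g0) := by ring
            rw [e5]
            exact dvd_sub (dvd_sub e2 e3) (e4.mul_right _)
          have hqi : Prime (q : ℤ) := Nat.prime_iff_prime_int.1 hq
          have e6 : ¬ ((q : ℤ) ∣ (f : ℤ) - f0 ∧ (q : ℤ) ∣ (f : ℤ) + f0) := by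
            rintro ⟨e7, e8⟩
            have e9 : (q : ℤ) ∣ 2 * f0 := by
              have := dvd_sub e8 e7
              have e10 : (f : ℤ) + f0 - ((f : ℤ) - f0) = 2 * f0 := by ring
              rwa [e10] at this
            rcases hqi.dvd_or_dvd e9 with h | h
            · have : q ∣ 2 := by exact_mod_cast h
              exact hq2 ((Nat.prime_dvd_prime_iff_eq hq Nat.prime_two).1 this)
            · exact hf0 (by exact_mod_cast h)
          have e7 : (((q ^ n : ℕ) : ℤ) ∣ (f : ℤ) - f0) ∨ (((q ^ n : ℕ) : ℤ) ∣ (f : ℤ) + f0) := by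
            by_cases h7 : (q : ℤ) ∣ (f : ℤ) - f0
            · left
              have h8 : ¬ (q : ℤ) ∣ (f : ℤ) + f0 := fun h => e6 ⟨h7, h⟩
              have h9 : IsCoprime ((q ^ n : ℕ) : ℤ) ((f : ℤ) + f0) := by
                push_cast
                exact ((Prime.coprime_iff_not_dvd hqi).2 h8).pow_left
              exact h9.dvd_of_dvd_mul_right e1
            · right
              have h9 : IsCoprime ((q ^ n : ℕ) : ℤ) ((f : ℤ) - f0) := by
                push_cast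
                exact ((Prime.coprime_iff_not_dvd hqi).2 h7).pow_left
              exact h9.dvd_of_dvd_mul_left e1
          rw [Finset.mem_insert, Finset.mem_singleton, Prod.mk.injEq, Prod.mk.injEq]
          rcases e7 with e7 | e7
          · left
            refine ⟨?_, rfl⟩
            rw [← ZMod.intCast_zmod_eq_zero_iff_dvd] at e7
            rw [← hu, ← hu0]
            push_cast at e7
            exact sub_eq_zero.1 e7
          · right
            refine ⟨?_, rfl⟩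
            rw [← ZMod.intCast_zmod_eq_zero_iff_dvd] at e7
            rw [← hu, ← hu0]
            push_cast at e7
            exact eq_neg_of_add_eq_zero_left e7
        exact (Finset.card_le_card h2).trans Finset.card_le_two
    rwa [Finset.card_univ, ZMod.card] at h1
  · rintro ⟨f, g⟩ ⟨hco, hd⟩
    simp only [B, Finset.mem_filter, Finset.mem_univ, true_and]
    refine ⟨f, g, ?_, hd, rfl, rfl⟩
    intro hqf
    have h1 : q ∣ f ^ 2 + g ^ 2 := (dvd_pow_self q hn.ne').trans hd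
    have h2 : q ∣ g ^ 2 := (Nat.dvd_add_right (dvd_pow hqf two_ne_zero)).1 h1
    exact hq.one_lt.ne' (Nat.eq_one_of_dvd_coprimes hco hqf (hq.dvd_of_dvd_pow h2))

end Pool.Agent.Q269.Jes
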