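import Pool.Agent.Q269.Jes.Dens

/-!
# The exceptional pairs have density zero
-/

set_option autoImplicit false

namespace Pool.Agent.Q269.Jes

open Pool.Agent.H374R2.Beal

/-- the pairs without the local conditions -/
def BadLoc (k E : ℕ) : Set (ℕ × ℕ) :=
  {w | w.1.Coprime w.2 ∧ (w.1 + w.2) % 2 = 1 ∧ w.2 < w.1 ∧ 0 < w.2 ∧ ¬ Loc k E w.1 w.2}

/-- the exceptional pairs -/
def Bad (k : ℕ) : Set (ℕ × ℕ) :=
  {w | w.1.Coprime w.2 ∧ (w.1 + w.2) % 2 = 1 ∧ w.2 < w.1 ∧ 0 < w.2 ∧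
    ∃ x y z : ℕ, 0 < x ∧ 0 < y ∧ 0 < z ∧
      (k * (w.1 ^ 2 - w.2 ^ 2)) ^ x + (k * (2 * w.1 * w.2)) ^ y = (k * (w.1 ^ 2 + w.2 ^ 2)) ^ z ∧
      ¬ (x = 2 ∧ y = 2 ∧ z = 2)}

theorem Bad_sub {k : ℕ} (hk : 0 < k) (E : ℕ) : Bad k ⊆ BadLoc k E := by
  rintro ⟨f, g⟩ ⟨h1, h2, h3, h4, x, y, z, hx, hy, hz, h, hne⟩
  refine ⟨h1, h2, h3, h4, fun L => hne ?_⟩
  have hle : g ^ 2 ≤ f ^ 2 := Nat.pow_le_pow_left (le_of_lt h3) 2
  exact main_arith hk h1 h2 h3 h4 (Nat.sub_add_cancel hle) L hx hy hz h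

/-- the condition `l5` for one prime -/
def S5 (q n : ℕ) : Set (ℕ × ℕ) :=
  {w | w.1.Coprime w.2 ∧ (w.1 + w.2) % 2 = 1 ∧ w.2 < w.1 ∧ 0 < w.2 ∧
    (q ^ n ∣ w.1 ^ 2 - w.2 ^ 2 ∨ q ^ n ∣ 2 * w.1 * w.2 ∨ q ^ n ∣ w.1 ^ 2 + w.2 ^ 2)}

/-- divisibility of a product of coprime numbers by a prime power -/
theorem pow_dvd_or {q n a b : ℕ} (hq : q.Prime) (hab : a.Coprime b) (h : q ^ n ∣ a * b) :
    q ^ n ∣ a ∨ q ^ n ∣ b := by
  by_cases h1 : q ∣ a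
  · left
    have h2 : ¬ q ∣ b := fun h2 => hq.one_lt.ne' (Nat.eq_one_of_dvd_coprimes hab h1 h2)
    exact (Nat.Coprime.pow_left n ((Nat.Prime.coprime_iff_not_dvd hq).2 h2)).dvd_of_dvd_mul_right h
  · right
    exact (Nat.Coprime.pow_left n ((Nat.Prime.coprime_iff_not_dvd hq).2 h1)).dvd_of_dvd_mul_left h

theorem S5_box {q n : ℕ} (hq : q.Prime) {N : ℕ} (hN : q ^ (n + 1) ≤ N) :
    ((S5 q (n + 1) ∩ Bx N).ncard : ℝ) ≤ 40 / (2 ^ n : ℕ) * (N : ℝ) ^ 2 := by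
  classical
  have hqn : 0 < q ^ n := pow_pos hq.pos n
  have hqn1 : 0 < q ^ (n + 1) := pow_pos hq.pos _
  have hN' : q ^ n ≤ N := (Nat.pow_le_pow_right hq.pos (Nat.le_succ n)).trans hN
  -- five sets
  let T1 : Set (ℕ × ℕ) := {w | q ^ n ∣ w.1}
  let T2 : Set (ℕ × ℕ) := {w | q ^ n ∣ w.2}
  let T3 : Set (ℕ × ℕ) := {w | (w.1 : ZMod (q ^ n)) = w.2}
  let T4 : Set (ℕ × ℕ) := {w | (w.1 : ZMod (q ^ n)) = -w.2}
  let T5 : Set (ℕ × ℕ) := {w | w.1.Coprime w.2 ∧ q ≠ 2 ∧ q ^ n ∣ w.1 ^ 2 + w.2 ^ 2}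
  have hsub : S5 q (n + 1) ⊆ T1 ∪ (T2 ∪ (T3 ∪ (T4 ∪ T5))) := by
    rintro ⟨f, g⟩ ⟨h1, h2, h3, h4, h5⟩
    simp only at h1 h2 h3 h4 h5
    have hd : q ^ n ∣ q ^ (n + 1) := pow_dvd_pow q (Nat.le_succ n)
    rcases h5 with h5 | h5 | h5
    · have e1 : f ^ 2 - g ^ 2 = (f + g) * (f - g) := Nat.sq_sub_sq f g
      rw [e1] at h5
      have hco : (f + g).Coprime (f - g) := by
        apply Nat.coprime_of_dvd
        intro r hr h6 h7
        have h8 : r ∣ 2 * f := by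
          have : 2 * f = (f + g) + (f - g) := by omega
          rw [this]
          exact dvd_add h6 h7
        have h9 : r ∣ 2 * g := by
          have : 2 * g = (f + g) - (f - g) := by omega
          rw [this]
          exact Nat.dvd_sub h6 h7
        rcases (hr.dvd_mul).1 h8 with h10 | h10
        · have : r = 2 := (Nat.prime_dvd_prime_iff_eq hr Nat.prime_two).1 h10
          subst this
          omega
        · rcases (hr.dvd_mul).1 h9 with h11 | h11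
          · have : r = 2 := (Nat.prime_dvd_prime_iff_eq hr Nat.prime_two).1 h11
            subst this
            omega
          · exact hr.one_lt.ne' (Nat.eq_one_of_dvd_coprimes h1 h10 h11)
      rcases pow_dvd_or hq hco h5 with h6 | h6
      · right; right; right; left
        have h7 : ((f + g : ℕ) : ZMod (q ^ n)) = 0 := by
          rw [ZMod.natCast_eq_zero_iff]
          exact hd.trans h6
        push_cast at h7
        exact eq_neg_of_add_eq_zero_left h7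
      · right; right; left
        have h7 : ((f - g : ℕ) : ZMod (q ^ n)) = 0 := by
          rw [ZMod.natCast_eq_zero_iff]
          exact hd.trans h6
        rw [Nat.cast_sub h3.le] at h7
        exact sub_eq_zero.1 h7
    · have h6 : q ^ n ∣ f * g := by
        rcases eq_or_ne q 2 with rfl | hq2
        · rw [pow_succ', mul_assoc] at h5
          exact Nat.dvd_of_mul_dvd_mul_left (by norm_num) h5
        · rw [mul_assoc] at h5
          have h7 : (q ^ n).Coprime 2 :=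
            Nat.Coprime.pow_left n ((Nat.coprime_primes hq Nat.prime_two).2 hq2)
          exact h7.dvd_of_dvd_mul_left (hd.trans h5)
      rcases pow_dvd_or hq h1 h6 with h7 | h7
      · left; exact h7
      · right; left; exact h7
    · right; right; right; right
      refine ⟨h1, ?_, hd.trans h5⟩
      rintro rfl
      have h6 : 2 ∣ f ^ 2 + g ^ 2 := (dvd_pow_self 2 (Nat.succ_ne_zero n)).trans h5
      rw [← even_iff_two_dvd, Nat.even_add, Nat.even_pow' two_ne_zero,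
        Nat.even_pow' two_ne_zero, ← Nat.even_add, Nat.even_iff] at h6
      omega
  have b1 : ((T1 ∩ Bx N).ncard : ℝ) ≤ 8 / (q ^ n : ℕ) * (N : ℝ) ^ 2 :=
    line_box hqn (fun u => (0, u)) (fun w hw => ⟨(w.2 : ZMod (q ^ n)), by
      have h0 : (w.1 : ZMod (q ^ n)) = 0 := (ZMod.natCast_eq_zero_iff _ _).2 hw
      rw [h0]⟩) hN'
  have b2 : ((T2 ∩ Bx N).ncard : ℝ) ≤ 8 / (q ^ n : ℕ) * (N : ℝ) ^ 2 :=
    line_box hqn (fun u => (u, 0)) (fun w hw => ⟨(w.1 : ZMod (q ^ n)), by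
      have h0 : (w.2 : ZMod (q ^ n)) = 0 := (ZMod.natCast_eq_zero_iff _ _).2 hw
      rw [h0]⟩) hN'
  have b3 : ((T3 ∩ Bx N).ncard : ℝ) ≤ 8 / (q ^ n : ℕ) * (N : ℝ) ^ 2 :=
    line_box hqn (fun u => (u, u)) (fun w hw => ⟨(w.2 : ZMod (q ^ n)), by
      have h0 : (w.1 : ZMod (q ^ n)) = w.2 := hw
      rw [h0]⟩) hN'
  have b4 : ((T4 ∩ Bx N).ncard : ℝ) ≤ 8 / (q ^ n : ℕ) * (N : ℝ) ^ 2 :=
    line_box hqn (fun u => (-u, u)) (fun w hw => ⟨(w.2 : ZMod (q ^ n)), by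
      have h0 : (w.1 : ZMod (q ^ n)) = -w.2 := hw
      rw [h0]⟩) hN'
  have b5 : ((T5 ∩ Bx N).ncard : ℝ) ≤ 8 / (q ^ n : ℕ) * (N : ℝ) ^ 2 := by
    rcases eq_or_ne q 2 with rfl | hq2
    · have : T5 = ∅ := by
        ext w
        simp [T5]
      rw [this, Set.empty_inter, Set.ncard_empty, Nat.cast_zero]
      positivity
    · refine le_trans ?_ (sq_box hq hq2 hN')
      have : T5 ∩ Bx N ⊆ {w : ℕ × ℕ | w.1.Coprime w.2 ∧ q ^ n ∣ w.1 ^ 2 + w.2 ^ 2} ∩ Bx N :=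
        fun w hw => ⟨⟨hw.1.1, hw.1.2.2⟩, hw.2⟩
      exact_mod_cast Set.ncard_le_ncard this ((Bx_finite N).subset Set.inter_subset_right)
  have hun : (S5 q (n + 1) ∩ Bx N).ncard ≤ (T1 ∩ Bx N).ncard + ((T2 ∩ Bx N).ncard +
      ((T3 ∩ Bx N).ncard + ((T4 ∩ Bx N).ncard + (T5 ∩ Bx N).ncard))) := by
    have h0 : S5 q (n + 1) ∩ Bx N ⊆ (T1 ∩ Bx N) ∪ ((T2 ∩ Bx N) ∪ ((T3 ∩ Bx N) ∪
        ((T4 ∩ Bx N) ∪ (T5 ∩ Bx N)))) := by
      rintro w ⟨hw, hb⟩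
      rcases hsub hw with h | h | h | h | h
      · exact Or.inl ⟨h, hb⟩
      · exact Or.inr (Or.inl ⟨h, hb⟩)
      · exact Or.inr (Or.inr (Or.inl ⟨h, hb⟩))
      · exact Or.inr (Or.inr (Or.inr (Or.inl ⟨h, hb⟩)))
      · exact Or.inr (Or.inr (Or.inr (Or.inr ⟨h, hb⟩)))
    have fin : ∀ T : Set (ℕ × ℕ), (T ∩ Bx N).Finite := fun T =>
      (Bx_finite N).subset Set.inter_subset_right
    refine (Set.ncard_le_ncard h0 ((fin _).union ((fin _).union ((fin _).union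
      ((fin _).union (fin _)))))).trans ?_
    refine (Set.ncard_union_le _ _).trans (Nat.add_le_add_left ?_ _)
    refine (Set.ncard_union_le _ _).trans (Nat.add_le_add_left ?_ _)
    refine (Set.ncard_union_le _ _).trans (Nat.add_le_add_left ?_ _)
    exact Set.ncard_union_le _ _
  have hunR : ((S5 q (n + 1) ∩ Bx N).ncard : ℝ) ≤ (T1 ∩ Bx N).ncard + ((T2 ∩ Bx N).ncard +
      ((T3 ∩ Bx N).ncard + ((T4 ∩ Bx N).ncard + (T5 ∩ Bx N).ncard))) := by exact_mod_cast hun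
  have h2q : ((2 ^ n : ℕ) : ℝ) ≤ ((q ^ n : ℕ) : ℝ) := by
    exact_mod_cast Nat.pow_le_pow_left hq.two_le n
  have h8 : (8 : ℝ) / (q ^ n : ℕ) ≤ 8 / (2 ^ n : ℕ) :=
    div_le_div_of_nonneg_left (by norm_num) (by positivity) h2q
  have h9 : (8 : ℝ) / (q ^ n : ℕ) * (N : ℝ) ^ 2 ≤ 8 / (2 ^ n : ℕ) * (N : ℝ) ^ 2 :=
    mul_le_mul_of_nonneg_right h8 (by positivity)
  calc ((S5 q (n + 1) ∩ Bx N).ncard : ℝ) ≤ 5 * (8 / (2 ^ n : ℕ) * (N : ℝ) ^ 2) := by linarith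
    _ = _ := by ring

/-- the condition `l6` -/
def S6 (n : ℕ) : Set (ℕ × ℕ) := {w | w.1.Coprime w.2 ∧ 2 ^ n ∣ w.1 * w.2}

theorem S6_box {n N : ℕ} (hN : 2 ^ n ≤ N) :
    ((S6 n ∩ Bx N).ncard : ℝ) ≤ 16 / (2 ^ n : ℕ) * (N : ℝ) ^ 2 := by
  classical
  have hqn : 0 < 2 ^ n := by positivity
  let T1 : Set (ℕ × ℕ) := {w | 2 ^ n ∣ w.1}
  let T2 : Set (ℕ × ℕ) := {w | 2 ^ n ∣ w.2}
  have b1 : ((T1 ∩ Bx N).ncard : ℝ) ≤ 8 / (2 ^ n : ℕ) * (N : ℝ) ^ 2 :=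
    line_box hqn (fun u => (0, u)) (fun w hw => ⟨(w.2 : ZMod (2 ^ n)), by
      have h0 : (w.1 : ZMod (2 ^ n)) = 0 := (ZMod.natCast_eq_zero_iff _ _).2 hw
      rw [h0]⟩) hN
  have b2 : ((T2 ∩ Bx N).ncard : ℝ) ≤ 8 / (2 ^ n : ℕ) * (N : ℝ) ^ 2 :=
    line_box hqn (fun u => (u, 0)) (fun w hw => ⟨(w.1 : ZMod (2 ^ n)), by
      have h0 : (w.2 : ZMod (2 ^ n)) = 0 := (ZMod.natCast_eq_zero_iff _ _).2 hw
      rw [h0]⟩) hN
  have fin : ∀ T : Set (ℕ × ℕ), (T ∩ Bx N).Finite := fun T =>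
    (Bx_finite N).subset Set.inter_subset_right
  have h0 : S6 n ∩ Bx N ⊆ (T1 ∩ Bx N) ∪ (T2 ∩ Bx N) := by
    rintro w ⟨⟨h1, h2⟩, hb⟩
    rcases pow_dvd_or Nat.prime_two h1 h2 with h | h
    · exact Or.inl ⟨h, hb⟩
    · exact Or.inr ⟨h, hb⟩
  have h1 : ((S6 n ∩ Bx N).ncard : ℝ) ≤ (T1 ∩ Bx N).ncard + (T2 ∩ Bx N).ncard := by
    exact_mod_cast (Set.ncard_le_ncard h0 ((fin _).union (fin _))).trans (Set.ncard_union_le _ _)
  calc _ ≤ 2 * (8 / (2 ^ n : ℕ) * (N : ℝ) ^ 2) := by linarith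
    _ = _ := by ring

theorem null_box {S : Set (ℕ × ℕ)} (h : UniformNull S) {ε : ℝ} (hε : 0 < ε) :
    ∃ N0 : ℕ, ∀ N : ℕ, N0 ≤ N → ((S ∩ Bx N).ncard : ℝ) ≤ ε * (N : ℝ) ^ 2 := by
  obtain ⟨L, hL⟩ := h ε hε
  refine ⟨L, fun N hN => ?_⟩
  have := hL N N hN hN 0 0
  rw [← Bx_eq] at this
  rw [sq]
  exact this

/-- **the exceptional pairs have density zero** -/
theorem Bad_density {k : ℕ} (hk : 0 < k) {ε : ℝ} (hε : 0 < ε) :
    ∃ N0 : ℕ, ∀ N : ℕ, N0 ≤ N → ((Bad k ∩ Bx N).ncard : ℝ) ≤ ε * (N : ℝ) ^ 2 := by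
  classical
  -- the choice of `E`
  obtain ⟨E, hE⟩ : ∃ E : ℕ, (40 * k + 16 : ℝ) / (2 ^ E : ℕ) ≤ ε / 2 := by
    obtain ⟨E, hE⟩ := exists_nat_ge ((40 * k + 16 : ℝ) / (ε / 2))
    refine ⟨E, ?_⟩
    rw [div_le_iff₀ (by positivity)]
    rw [div_le_iff₀ (by positivity)] at hE
    have h1 : (E : ℝ) ≤ ((2 ^ E : ℕ) : ℝ) := by exact_mod_cast Nat.lt_two_pow_self.le
    nlinarith
  have hnull := ((null1 hk).union (null2 hk E)).union ((null3 hk E).union (null4 hk))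
  obtain ⟨N1, hN1⟩ := null_box hnull (show 0 < ε / 2 by positivity)
  -- the exponent of `l5`
  obtain ⟨n, hn⟩ : ∃ n, 2 ^ (2 * E + 1) = n + 1 := ⟨2 ^ (2 * E + 1) - 1, by
    have : 0 < 2 ^ (2 * E + 1) := by positivity
    omega⟩
  have hnE : E ≤ n := by
    have : 2 * E + 1 < 2 ^ (2 * E + 1) := Nat.lt_two_pow_self
    omega
  refine ⟨max N1 (max (k ^ (n + 1)) (2 ^ (E + 1))), fun N hN => ?_⟩
  have hNa : N1 ≤ N := (le_max_left _ _).trans hN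
  have hNb : k ^ (n + 1) ≤ N := ((le_max_left _ _).trans (le_max_right _ _)).trans hN
  have hNc : 2 ^ (E + 1) ≤ N := ((le_max_right _ _).trans (le_max_right _ _)).trans hN
  have fin : ∀ T : Set (ℕ × ℕ), (T ∩ Bx N).Finite := fun T =>
    (Bx_finite N).subset Set.inter_subset_right
  set U : Set (ℕ × ℕ) := ({w : ℕ × ℕ | ¬ ∃ p : ℕ, p.Prime ∧ p % 4 = 3 ∧ ¬ p ∣ k ∧ (w.1 : ZMod p) = 0} ∪
    {w : ℕ × ℕ | ¬ ∃ p : ℕ, p.Prime ∧
      2 ^ (2 * E + 3) ∣ p - 1 ∧ ¬ p ∣ k ∧ (w.2 : ZMod p) = 0 ∧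
      ((k : ZMod p) * (w.1 : ZMod p) ^ 2) ^ ((p - 1) / 4) ≠ 1}) ∪
    ({w : ℕ × ℕ | ¬ ∃ p : ℕ, p.Prime ∧
      2 ^ (2 * E + 3) ∣ p - 1 ∧ ¬ p ∣ k ∧ (w.1 : ZMod p) = (w.2 : ZMod p) ∧
      (2 * (k : ZMod p) * (w.2 : ZMod p) ^ 2) ^ ((p - 1) / 4) ≠ 1} ∪
    {w : ℕ × ℕ | ¬ ∃ p : ℕ, p.Prime ∧ p % 8 = 5 ∧
      ¬ p ∣ k ∧ (w.1 : ZMod p) ^ 2 + (w.2 : ZMod p) ^ 2 = 0}) with hU
  have hsub : Bad k ∩ Bx N ⊆ (U ∩ Bx N) ∪
      (((k.primeFactors.biUnion (fun q => (fin (S5 q (n + 1))).toFinset) : Finset (ℕ × ℕ)) :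
        Set (ℕ × ℕ)) ∪ (S6 (E + 1) ∩ Bx N)) := by
    rintro w ⟨hw, hb⟩
    obtain ⟨h1, h2, h3, h4, h5⟩ := Bad_sub hk E hw
    by_contra hcon
    rw [Set.mem_union, Set.mem_union, not_or, not_or] at hcon
    obtain ⟨c1, c2, c3⟩ := hcon
    apply h5
    have c1' : w ∉ U := fun h => c1 ⟨h, hb⟩
    rw [hU, Set.mem_union, Set.mem_union, Set.mem_union, not_or, not_or, not_or] at c1'
    obtain ⟨⟨d1, d2⟩, d3, d4⟩ := c1'
    rw [Set.mem_ofPred_eq, not_not] at d1 d2 d3 d4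
    refine ⟨d1, d2, d3, d4, ?_, ?_⟩
    · intro q hq hqk m hm hdvd
      apply c2
      rw [Finset.mem_coe, Finset.mem_biUnion]
      refine ⟨q, Nat.mem_primeFactors.2 ⟨hq, hqk, hk.ne'⟩, ?_⟩
      rw [Set.Finite.mem_toFinset]
      refine ⟨⟨h1, h2, h3, h4, ?_⟩, hb⟩
      rw [hn] at hdvd
      rcases hm with rfl | rfl | rfl
      · exact Or.inl hdvd
      · exact Or.inr (Or.inl hdvd)
      · exact Or.inr (Or.inr hdvd)
    · intro hdvd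
      exact c3 ⟨⟨h1, hdvd⟩, hb⟩
  have c5 : ((k.primeFactors.biUnion (fun q => (fin (S5 q (n + 1))).toFinset) :
      Finset (ℕ × ℕ)).card : ℝ) ≤ k * (40 / (2 ^ E : ℕ) * (N : ℝ) ^ 2) := by
    have h1 : ((k.primeFactors.biUnion (fun q => (fin (S5 q (n + 1))).toFinset) :
      Finset (ℕ × ℕ)).card : ℝ) ≤ ∑ q ∈ k.primeFactors, ((S5 q (n + 1) ∩ Bx N).ncard : ℝ) := by
      have : (k.primeFactors.biUnion (fun q => (fin (S5 q (n + 1))).toFinset) :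
        Finset (ℕ × ℕ)).card ≤ ∑ q ∈ k.primeFactors, (S5 q (n + 1) ∩ Bx N).ncard := by
        refine Finset.card_biUnion_le.trans (Finset.sum_le_sum fun q _ => ?_)
        rw [Set.ncard_eq_toFinset_card _ (fin _)]
      exact_mod_cast this
    refine h1.trans ?_
    have h2 : ∀ q ∈ k.primeFactors, ((S5 q (n + 1) ∩ Bx N).ncard : ℝ) ≤
        40 / (2 ^ E : ℕ) * (N : ℝ) ^ 2 := by
      intro q hq
      have hq' := Nat.prime_of_mem_primeFactors hq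
      have hqk : q ≤ k := Nat.le_of_dvd hk (Nat.dvd_of_mem_primeFactors hq)
      refine (S5_box hq' ((Nat.pow_le_pow_left hqk _).trans hNb)).trans ?_
      apply mul_le_mul_of_nonneg_right _ (by positivity)
      apply div_le_div_of_nonneg_left (by norm_num) (by positivity)
      exact_mod_cast Nat.pow_le_pow_right (by norm_num) hnE
    refine (Finset.sum_le_sum h2).trans ?_
    rw [Finset.sum_const, nsmul_eq_mul]
    apply mul_le_mul_of_nonneg_right _ (by positivity)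
    have h3 : k.primeFactors.card ≤ k := by
      have h4 : k.primeFactors ⊆ Finset.Icc 1 k := by
        intro q hq
        rw [Finset.mem_Icc]
        exact ⟨(Nat.prime_of_mem_primeFactors hq).one_lt.le,
          Nat.le_of_dvd hk (Nat.dvd_of_mem_primeFactors hq)⟩
      have := Finset.card_le_card h4
      rwa [Nat.card_Icc, Nat.add_sub_cancel] at this
    exact_mod_cast h3
  have c6 : ((S6 (E + 1) ∩ Bx N).ncard : ℝ) ≤ 16 / (2 ^ E : ℕ) * (N : ℝ) ^ 2 := by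
    refine (S6_box hNc).trans ?_
    apply mul_le_mul_of_nonneg_right _ (by positivity)
    apply div_le_div_of_nonneg_left (by norm_num) (by positivity)
    exact_mod_cast Nat.pow_le_pow_right (by norm_num) (Nat.le_succ E)
  have c1 := hN1 N hNa
  have hcard : ((Bad k ∩ Bx N).ncard : ℝ) ≤ (U ∩ Bx N).ncard +
      (((k.primeFactors.biUnion (fun q => (fin (S5 q (n + 1))).toFinset) : Finset (ℕ × ℕ)).card : ℝ) +
        (S6 (E + 1) ∩ Bx N).ncard) := by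
    have h1 : (Bad k ∩ Bx N).ncard ≤ (U ∩ Bx N).ncard +
      ((k.primeFactors.biUnion (fun q => (fin (S5 q (n + 1))).toFinset) : Finset (ℕ × ℕ)).card +
        (S6 (E + 1) ∩ Bx N).ncard) := by
      refine (Set.ncard_le_ncard hsub ((fin _).union ((Finset.finite_toSet _).union (fin _)))).trans ?_
      refine (Set.ncard_union_le _ _).trans (Nat.add_le_add_left ?_ _)
      refine (Set.ncard_union_le _ _).trans (Nat.add_le_add_right ?_ _)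
      rw [Set.ncard_coe_finset]
    exact_mod_cast h1
  have hfin : (k : ℝ) * (40 / (2 ^ E : ℕ) * (N : ℝ) ^ 2) + 16 / (2 ^ E : ℕ) * (N : ℝ) ^ 2 ≤
      ε / 2 * (N : ℝ) ^ 2 := by
    have e1 : (k : ℝ) * (40 / (2 ^ E : ℕ) * (N : ℝ) ^ 2) + 16 / (2 ^ E : ℕ) * (N : ℝ) ^ 2 =
        (40 * k + 16 : ℝ) / (2 ^ E : ℕ) * (N : ℝ) ^ 2 := by ring
    rw [e1]
    exact mul_le_mul_of_nonneg_right hE (by positivity)
  have e2 : ε * (N : ℝ) ^ 2 = ε / 2 * (N : ℝ) ^ 2 + ε / 2 * (N : ℝ) ^ 2 := by ring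
  rw [e2]
  have c1' : ((U ∩ Bx N).ncard : ℝ) ≤ ε / 2 * (N : ℝ) ^ 2 := c1
  linarith

end Pool.Agent.Q269.Jes
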