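import Pool.Agent.Q269.Jes.Main

/-!
# Counting primitive Pythagorean triples
-/

set_option autoImplicit false

namespace Pool.Agent.Q269.Jes

open Finset

/-- the pairs `(i, j)`, `j ≤ i ≤ K` -/
def TT (K : ℕ) : Finset (ℕ × ℕ) := (Icc 1 K ×ˢ Icc 1 K).filter (fun w => w.2 ≤ w.1)

/-- the coprime ones -/
def Cop (K : ℕ) : Finset (ℕ × ℕ) := (TT K).filter (fun w => (2 * w.1).Coprime (2 * w.2 - 1))

theorem TT_card (K : ℕ) : 2 * (TT K).card = K * (K + 1) := by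
  classical
  have h1 : (TT K).card = ∑ i ∈ Icc 1 K, i := by
    have : TT K = (Icc 1 K).biUnion (fun i => (Icc 1 i).image (fun j => (i, j))) := by
      ext ⟨i, j⟩
      simp only [TT, mem_filter, mem_product, mem_Icc, mem_biUnion, mem_image, Prod.mk.injEq]
      constructor
      · rintro ⟨⟨⟨h1, h2⟩, h3, h4⟩, h5⟩
        exact ⟨i, ⟨h1, h2⟩, j, ⟨h3, h5⟩, rfl, rfl⟩
      · rintro ⟨i', ⟨h1, h2⟩, j', ⟨h3, h4⟩, rfl, rfl⟩
        exact ⟨⟨⟨h1, h2⟩, h3, by omega⟩, h4⟩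
    rw [this, card_biUnion]
    · apply sum_congr rfl
      intro i _
      rw [card_image_of_injective _ (fun a b h => (Prod.mk.inj h).2), Nat.card_Icc,
        Nat.add_sub_cancel]
    · intro i _ j _ hij
      rw [Function.onFun, disjoint_left]
      rintro ⟨a, b⟩ h1 h2
      simp only [mem_image, mem_Icc, Prod.mk.injEq] at h1 h2
      obtain ⟨_, _, h3, _⟩ := h1
      obtain ⟨_, _, h4, _⟩ := h2
      exact hij (h3.trans h4.symm)
  rw [h1]
  clear h1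
  induction K with
  | zero => simp
  | succ K ih =>
    rw [sum_Icc_succ_top (by omega), mul_add, ih]
    ring

/-- the pairs divisible by `d` -/
def Td (K d : ℕ) : Finset (ℕ × ℕ) := (TT K).filter (fun w => d ∣ w.1 ∧ d ∣ 2 * w.2 - 1)

theorem Td_card {K d : ℕ} (hd : 0 < d) : (Td K d).card ≤ (K / d) * (K / d) := by
  classical
  have h1 : (Td K d).card ≤ ((Icc 1 (K / d)) ×ˢ (range (K / d))).card := by
    apply card_le_card_of_injOn (fun w => (w.1 / d, (2 * w.2 - 1) / d / 2))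
    · rintro ⟨i, j⟩ h
      rw [mem_coe] at h
      simp only [Td, TT, mem_filter, mem_product, mem_Icc] at h
      obtain ⟨⟨⟨⟨h1, h2⟩, h3, h4⟩, h5⟩, ⟨a, ha⟩, ⟨b, hb⟩⟩ := h
      have ha' : i / d = a := by rw [ha, Nat.mul_div_cancel_left _ hd]
      have hb' : (2 * j - 1) / d = b := by rw [hb, Nat.mul_div_cancel_left _ hd]
      simp only [coe_product, Set.mem_prod, mem_coe, mem_Icc, mem_range]
      rw [ha', hb']
      have haK : a ≤ K / d := by
        rw [Nat.le_div_iff_mul_le hd, mul_comm, ← ha]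
        exact h2
      have ha0 : 1 ≤ a := by
        rcases Nat.eq_zero_or_pos a with h | h
        · rw [h, mul_zero] at ha; omega
        · exact h
      refine ⟨⟨ha0, haK⟩, ?_⟩
      have hlt : d * b < d * (2 * a) := by
        rw [← hb]
        have : d * (2 * a) = 2 * (d * a) := by ring
        rw [this, ← ha]
        omega
      have hlt2 : b < 2 * a := Nat.lt_of_mul_lt_mul_left hlt
      omega
    · rintro ⟨i, j⟩ h ⟨i', j'⟩ h' heq
      rw [mem_coe] at h h'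
      simp only [Td, TT, mem_filter, mem_product, mem_Icc] at h h'
      obtain ⟨⟨⟨⟨h1, h2⟩, h3, h4⟩, h5⟩, ⟨a, ha⟩, ⟨b, hb⟩⟩ := h
      obtain ⟨⟨⟨⟨h1', h2'⟩, h3', h4'⟩, h5'⟩, ⟨a', ha'⟩, ⟨b', hb'⟩⟩ := h'
      simp only [Prod.mk.injEq] at heq
      obtain ⟨e1, e2⟩ := heq
      rw [ha, ha', Nat.mul_div_cancel_left _ hd, Nat.mul_div_cancel_left _ hd] at e1
      rw [hb, hb', Nat.mul_div_cancel_left _ hd, Nat.mul_div_cancel_left _ hd] at e2
      have hbo : Odd b := by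
        have : Odd (d * b) := by rw [← hb, Nat.odd_iff]; omega
        exact (Nat.odd_mul.1 this).2
      have hbo' : Odd b' := by
        have : Odd (d * b') := by rw [← hb', Nat.odd_iff]; omega
        exact (Nat.odd_mul.1 this).2
      rw [Nat.odd_iff] at hbo hbo'
      have hbb : b = b' := by omega
      subst hbb
      subst e1
      rw [Prod.mk.injEq]
      constructor
      · rw [ha, ha']
      · omega
  rwa [card_product, Nat.card_Icc, Nat.add_sub_cancel, card_range] at h1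

theorem Cop_card (K : ℕ) : (K : ℝ) ^ 2 / 4 ≤ (Cop K).card := by
  classical
  have h1 : TT K ⊆ Cop K ∪ (Icc 1 K).biUnion (fun m => Td K (2 * m + 1)) := by
    rintro ⟨i, j⟩ h
    rw [mem_union]
    by_cases hc : (2 * i).Coprime (2 * j - 1)
    · left
      exact mem_filter.2 ⟨h, hc⟩
    · right
      rw [Nat.Prime.not_coprime_iff_dvd] at hc
      obtain ⟨p, hp, hp1, hp2⟩ := hc
      have h' := h
      simp only [TT, mem_filter, mem_product, mem_Icc] at h'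
      obtain ⟨⟨⟨h1, h2⟩, h3, h4⟩, h5⟩ := h'
      have hpo : p ≠ 2 := by
        rintro rfl
        omega
      have hpi : p ∣ i := by
        rcases (hp.dvd_mul).1 hp1 with h6 | h6
        · exact absurd ((Nat.prime_dvd_prime_iff_eq hp Nat.prime_two).1 h6) hpo
        · exact h6
      have hodd : Odd p := hp.odd_of_ne_two hpo
      obtain ⟨m, hm⟩ := hodd
      have hpK : p ≤ i := Nat.le_of_dvd (by omega) hpi
      rw [mem_biUnion]
      refine ⟨m, ?_, ?_⟩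
      · rw [mem_Icc]
        have := hp.two_le
        omega
      · rw [← hm]
        exact mem_filter.2 ⟨h, hpi, hp2⟩
  have h2 : ((TT K).card : ℝ) ≤ (Cop K).card + ∑ m ∈ Icc 1 K, ((Td K (2 * m + 1)).card : ℝ) := by
    have := (card_le_card h1).trans (card_union_le _ _)
    have h3 : (TT K).card ≤ (Cop K).card + ∑ m ∈ Icc 1 K, (Td K (2 * m + 1)).card :=
      this.trans (Nat.add_le_add_left card_biUnion_le _)
    exact_mod_cast h3
  have h3 : ∑ m ∈ Icc 1 K, ((Td K (2 * m + 1)).card : ℝ) ≤ (K : ℝ) ^ 2 / 4 := by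
    have h4 : ∀ m ∈ Icc 1 K, ((Td K (2 * m + 1)).card : ℝ) ≤
        (K : ℝ) ^ 2 / 4 * (1 / (m : ℝ) - 1 / ((m : ℝ) + 1)) := by
      intro m hm
      rw [mem_Icc] at hm
      have hm0 : (0 : ℝ) < m := by exact_mod_cast (by omega : 0 < m)
      have h5 : ((Td K (2 * m + 1)).card : ℝ) ≤ ((K / (2 * m + 1) : ℕ) : ℝ) * ((K / (2 * m + 1) : ℕ) : ℝ) := by
        exact_mod_cast Td_card (by omega)
      have h6 : ((K / (2 * m + 1) : ℕ) : ℝ) ≤ (K : ℝ) / (2 * m + 1) := by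
        have := Nat.cast_div_le (α := ℝ) (m := K) (n := 2 * m + 1)
        push_cast at this
        exact this
      calc ((Td K (2 * m + 1)).card : ℝ) ≤ (K : ℝ) / (2 * m + 1) * ((K : ℝ) / (2 * m + 1)) :=
            h5.trans (mul_le_mul h6 h6 (by positivity) (by positivity))
        _ = (K : ℝ) ^ 2 * (1 / (2 * m + 1) ^ 2) := by field_simp
        _ ≤ (K : ℝ) ^ 2 * (1 / (4 * m * (m + 1))) := by
            apply mul_le_mul_of_nonneg_left _ (by positivity)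
            apply div_le_div_of_nonneg_left (by norm_num) (by positivity)
            nlinarith
        _ = _ := by field_simp; ring
    refine (sum_le_sum h4).trans ?_
    rw [← mul_sum]
    have h5 : ∑ m ∈ Icc 1 K, (1 / (m : ℝ) - 1 / ((m : ℝ) + 1)) = 1 - 1 / ((K : ℝ) + 1) := by
      clear h4 h2 h1
      induction K with
      | zero => simp
      | succ K ih =>
        rw [sum_Icc_succ_top (by omega), ih]
        push_cast
        ring
    rw [h5]
    have h6 : (0 : ℝ) ≤ 1 / ((K : ℝ) + 1) := by positivity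
    nlinarith [sq_nonneg (K : ℝ)]
  have h4 : (2 : ℝ) * (TT K).card = K * (K + 1) := by exact_mod_cast TT_card K
  have h5 : (0 : ℝ) ≤ K := Nat.cast_nonneg K
  nlinarith

/-- the primitive Pythagorean triples `(a, b, c)` with `c ≤ N` -/
def Prim (N : ℕ) : Set (ℕ × ℕ × ℕ) :=
  {t | 0 < t.1 ∧ 0 < t.2.1 ∧ t.1 ^ 2 + t.2.1 ^ 2 = t.2.2 ^ 2 ∧ t.1.Coprime t.2.1 ∧ t.2.2 ≤ N}

/-- the exceptional ones -/
def Exc (k N : ℕ) : Set (ℕ × ℕ × ℕ) :=
  {t ∈ Prim N | ∃ x y z : ℕ, 0 < x ∧ 0 < y ∧ 0 < z ∧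
    (k * t.1) ^ x + (k * t.2.1) ^ y = (k * t.2.2) ^ z ∧ ¬ (x = 2 ∧ y = 2 ∧ z = 2)}

theorem Prim_finite (N : ℕ) : (Prim N).Finite := by
  apply ((Set.finite_Iic N).prod ((Set.finite_Iic N).prod (Set.finite_Iic N))).subset
  rintro ⟨a, b, c⟩ ⟨h1, h2, h3, h4, h5⟩
  simp only [Set.mem_prod, Set.mem_Iic] at *
  refine ⟨?_, ?_, h5⟩ <;> nlinarith

/-- the parametrization -/
def ph (w : ℕ × ℕ) : ℕ × ℕ × ℕ := (w.1 ^ 2 - w.2 ^ 2, 2 * w.1 * w.2, w.1 ^ 2 + w.2 ^ 2)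

def ph' (w : ℕ × ℕ) : ℕ × ℕ × ℕ := (2 * w.1 * w.2, w.1 ^ 2 - w.2 ^ 2, w.1 ^ 2 + w.2 ^ 2)

theorem param_odd {a b c : ℕ} (ha : 0 < a) (hb : 0 < b) (h : a ^ 2 + b ^ 2 = c ^ 2)
    (hco : a.Coprime b) (hodd : a % 2 = 1) : ∃ w : ℕ × ℕ, w.1.Coprime w.2 ∧ (w.1 + w.2) % 2 = 1 ∧
      w.2 < w.1 ∧ 0 < w.2 ∧ ph w = (a, b, c) := by
  have hp : PythagoreanTriple (a : ℤ) (b : ℤ) (c : ℤ) := by
    unfold PythagoreanTriple
    have : ((a ^ 2 + b ^ 2 : ℕ) : ℤ) = ((c ^ 2 : ℕ) : ℤ) := by rw [h]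
    push_cast at this
    linarith
  have hc : 0 < c := by
    rcases Nat.eq_zero_or_pos c with h0 | h0
    · rw [h0] at h
      have : 0 < a ^ 2 := by positivity
      omega
    · exact h0
  obtain ⟨m, n, h1, h2, h3, h4, h5, h6⟩ := hp.coprime_classification' (by
    rw [Int.gcd_natCast_natCast]; exact hco) (by exact_mod_cast hodd) (by exact_mod_cast hc)
  have hb' : (0 : ℤ) < b := by exact_mod_cast hb
  have ha' : (0 : ℤ) < a := by exact_mod_cast ha
  have hm : 0 < m := by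
    rcases h6.lt_or_eq with h | h
    · exact h
    · rw [← h, mul_zero, zero_mul] at h2
      omega
  have hn : 0 < n := by
    by_contra hcon
    push Not at hcon
    have : 2 * m * n ≤ 0 := mul_nonpos_of_nonneg_of_nonpos (by linarith) hcon
    omega
  obtain ⟨f, rfl⟩ := Int.eq_ofNat_of_zero_le hm.le
  obtain ⟨g, rfl⟩ := Int.eq_ofNat_of_zero_le hn.le
  have hgf : g < f := by
    by_contra hcon
    push Not at hcon
    have h7 : f ^ 2 ≤ g ^ 2 := Nat.pow_le_pow_left hcon 2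
    have h8 : (f : ℤ) ^ 2 ≤ (g : ℤ) ^ 2 := by exact_mod_cast h7
    omega
  refine ⟨(f, g), ?_, ?_, hgf, by exact_mod_cast hn, ?_⟩
  · rw [Int.gcd_natCast_natCast] at h4
    exact h4
  · simp only
    omega
  · have h7 : g ^ 2 ≤ f ^ 2 := Nat.pow_le_pow_left hgf.le 2
    simp only [ph, Prod.mk.injEq]
    refine ⟨?_, ?_, ?_⟩
    · zify [h7]
      rw [h1]
    · zify
      rw [h2]
    · zify
      rw [h3]

theorem param {a b c : ℕ} (ha : 0 < a) (hb : 0 < b) (h : a ^ 2 + b ^ 2 = c ^ 2)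
    (hco : a.Coprime b) : ∃ w : ℕ × ℕ, w.1.Coprime w.2 ∧ (w.1 + w.2) % 2 = 1 ∧
      w.2 < w.1 ∧ 0 < w.2 ∧ (ph w = (a, b, c) ∨ ph' w = (a, b, c)) := by
  rcases Nat.mod_two_eq_zero_or_one a with h0 | h0
  · have hb1 : b % 2 = 1 := by
      rcases Nat.mod_two_eq_zero_or_one b with h1 | h1
      · exfalso
        have h2 : 2 ∣ a := Nat.dvd_of_mod_eq_zero h0
        have h3 : 2 ∣ b := Nat.dvd_of_mod_eq_zero h1
        have := Nat.eq_one_of_dvd_coprimes hco h2 h3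
        omega
      · exact h1
    obtain ⟨w, h1, h2, h3, h4, h5⟩ := param_odd hb ha (by rw [add_comm]; exact h) hco.symm hb1
    refine ⟨w, h1, h2, h3, h4, Or.inr ?_⟩
    simp only [ph, ph', Prod.mk.injEq] at h5 ⊢
    exact ⟨h5.2.1, h5.1, h5.2.2⟩
  · obtain ⟨w, h1, h2, h3, h4, h5⟩ := param_odd ha hb h hco h0
    exact ⟨w, h1, h2, h3, h4, Or.inl h5⟩

theorem Exc_sub (k N : ℕ) : Exc k N ⊆ ph '' (Bad k ∩ Bx (Nat.sqrt N)) ∪
    ph' '' (Bad k ∩ Bx (Nat.sqrt N)) := by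
  rintro ⟨a, b, c⟩ ⟨⟨ha, hb, h, hco, hc⟩, x, y, z, hx, hy, hz, he, hne⟩
  simp only at ha hb h hco hc he
  obtain ⟨⟨f, g⟩, h1, h2, h3, h4, h5⟩ := param ha hb h hco
  simp only at h1 h2 h3 h4
  have hbox : f ^ 2 + g ^ 2 = c → (f, g) ∈ Bx (Nat.sqrt N) := by
    intro hfg
    simp only [Bx, Set.mem_prod, Set.mem_Ioc]
    have hf : f ≤ Nat.sqrt N := by
      rw [Nat.le_sqrt]
      nlinarith
    exact ⟨⟨by omega, hf⟩, h4, by omega⟩
  rcases h5 with h5 | h5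
  · left
    simp only [ph, Prod.mk.injEq] at h5
    obtain ⟨e1, e2, e3⟩ := h5
    refine ⟨(f, g), ⟨⟨h1, h2, h3, h4, x, y, z, hx, hy, hz, ?_, hne⟩, hbox e3⟩, ?_⟩
    · simp only
      rw [e1, e2, e3]
      exact he
    · simp only [ph, Prod.mk.injEq]
      exact ⟨e1, e2, e3⟩
  · right
    simp only [ph', Prod.mk.injEq] at h5
    obtain ⟨e1, e2, e3⟩ := h5
    refine ⟨(f, g), ⟨⟨h1, h2, h3, h4, y, x, z, hy, hx, hz, ?_, ?_⟩, hbox e3⟩, ?_⟩
    · simp only
      rw [e1, e2, e3, add_comm]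
      exact he
    · rintro ⟨rfl, rfl, rfl⟩
      exact hne ⟨rfl, rfl, rfl⟩
    · simp only [ph', Prod.mk.injEq]
      exact ⟨e1, e2, e3⟩

theorem Prim_lower (K N : ℕ) (hK : 8 * K ^ 2 ≤ N) : (K : ℝ) ^ 2 / 4 ≤ (Prim N).ncard := by
  classical
  refine (Cop_card K).trans ?_
  have h1 : (Cop K).card ≤ (Prim N).ncard := by
    rw [← Set.ncard_coe_finset]
    apply Set.ncard_le_ncard_of_injOn (fun w => ph (2 * w.1, 2 * w.2 - 1)) _ _ (Prim_finite N)
    · rintro ⟨i, j⟩ h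
      rw [mem_coe] at h
      simp only [Cop, TT, mem_filter, mem_product, mem_Icc] at h
      obtain ⟨⟨⟨⟨h1, h2⟩, h3, h4⟩, h5⟩, hco⟩ := h
      have hgf : 2 * j - 1 < 2 * i := by omega
      have hle : (2 * j - 1) ^ 2 < (2 * i) ^ 2 := Nat.pow_lt_pow_left hgf two_ne_zero
      have t := tr_of (A := (2 * i) ^ 2 - (2 * j - 1) ^ 2) hco (by omega) hgf (by omega)
        (Nat.sub_add_cancel hle.le)
      simp only [ph, Prim, Set.mem_ofPred_eq]
      refine ⟨by have := t.A3; omega, by have := t.B4; omega, t.pyth, t.cAB, ?_⟩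
      have hi : i ^ 2 ≤ K ^ 2 := Nat.pow_le_pow_left h2 2
      have : (2 * i) ^ 2 = 4 * i ^ 2 := by ring
      omega
    · rintro ⟨i, j⟩ h ⟨i', j'⟩ h' heq
      rw [mem_coe] at h h'
      simp only [Cop, TT, mem_filter, mem_product, mem_Icc] at h h'
      obtain ⟨⟨⟨⟨h1, h2⟩, h3, h4⟩, h5⟩, hco⟩ := h
      obtain ⟨⟨⟨⟨h1', h2'⟩, h3', h4'⟩, h5'⟩, hco'⟩ := h'
      simp only [ph, Prod.mk.injEq] at heq
      obtain ⟨e1, -, e3⟩ := heq
      have hle : (2 * j - 1) ^ 2 < (2 * i) ^ 2 := Nat.pow_lt_pow_left (by omega) two_ne_zero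
      have hle' : (2 * j' - 1) ^ 2 < (2 * i') ^ 2 := Nat.pow_lt_pow_left (by omega) two_ne_zero
      have e4 : (2 * i) ^ 2 = (2 * i') ^ 2 := by omega
      have e5 : (2 * j - 1) ^ 2 = (2 * j' - 1) ^ 2 := by omega
      have e6 := Nat.pow_left_injective two_ne_zero e4
      have e7 := Nat.pow_left_injective two_ne_zero e5
      rw [Prod.mk.injEq]
      omega
  exact_mod_cast h1

/-- **density** -/
theorem Exc_density {k : ℕ} (hk : 0 < k) {ε : ℝ} (hε : 0 < ε) :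
    ∃ N0 : ℕ, ∀ N : ℕ, N0 ≤ N → 0 < (Prim N).ncard ∧
      ((Exc k N).ncard : ℝ) ≤ ε * (Prim N).ncard := by
  obtain ⟨M0, hM0⟩ := Bad_density hk (show 0 < ε / 256 by positivity)
  refine ⟨max 8 (M0 ^ 2), fun N hN => ?_⟩
  have hN8 : 8 ≤ N := (le_max_left _ _).trans hN
  have hNM : M0 ^ 2 ≤ N := (le_max_right _ _).trans hN
  have hM : M0 ≤ Nat.sqrt N := by
    rw [Nat.le_sqrt, ← sq]
    exact hNM
  set K := Nat.sqrt (N / 8) with hK
  have hK1 : 1 ≤ K := by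
    rw [hK, Nat.le_sqrt]
    omega
  have hK8 : 8 * K ^ 2 ≤ N := by
    have : K ^ 2 ≤ N / 8 := by rw [sq]; exact Nat.sqrt_le _
    omega
  have hNK : N ≤ 32 * K ^ 2 := by
    have h1 : N / 8 < (K + 1) * (K + 1) := Nat.lt_succ_sqrt _
    have h2 : N < 8 * ((K + 1) * (K + 1)) := by omega
    nlinarith
  have hlow := Prim_lower K N hK8
  have hKR : (1 : ℝ) ≤ K := by exact_mod_cast hK1
  have hpos : (0 : ℝ) < (Prim N).ncard := lt_of_lt_of_le (by positivity) hlow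
  refine ⟨by exact_mod_cast hpos, ?_⟩
  have h1 := hM0 _ hM
  have fin : (Bad k ∩ Bx (Nat.sqrt N)).Finite := (Bx_finite _).subset Set.inter_subset_right
  have h2 : ((Exc k N).ncard : ℝ) ≤ 2 * (Bad k ∩ Bx (Nat.sqrt N)).ncard := by
    have h3 : (Exc k N).ncard ≤ (Bad k ∩ Bx (Nat.sqrt N)).ncard + (Bad k ∩ Bx (Nat.sqrt N)).ncard :=
      ((Set.ncard_le_ncard (Exc_sub k N) ((fin.image _).union (fin.image _))).trans
        (Set.ncard_union_le _ _)).trans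
        (Nat.add_le_add (Set.ncard_image_le fin) (Set.ncard_image_le fin))
    have h4 : ((Exc k N).ncard : ℝ) ≤ (Bad k ∩ Bx (Nat.sqrt N)).ncard +
      (Bad k ∩ Bx (Nat.sqrt N)).ncard := by exact_mod_cast h3
    linarith
  have h3 : ((Nat.sqrt N : ℕ) : ℝ) ^ 2 ≤ 32 * (K : ℝ) ^ 2 := by
    have : (Nat.sqrt N) ^ 2 ≤ 32 * K ^ 2 := by
      have := Nat.sqrt_le' N
      omega
    exact_mod_cast this
  calc ((Exc k N).ncard : ℝ) ≤ 2 * (ε / 256 * ((Nat.sqrt N : ℕ) : ℝ) ^ 2) := by linarith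
    _ ≤ 2 * (ε / 256 * (32 * (K : ℝ) ^ 2)) := by gcongr
    _ = ε * ((K : ℝ) ^ 2 / 4) := by ring
    _ ≤ _ := by gcongr

end Pool.Agent.Q269.Jes
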