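import Pool.Agent.Q269.Jes.Prim

/-!
# The shuffled equation `(f²+g²)^x + (2fg)^y = (f²-g²)^z`
-/

set_option autoImplicit false

namespace Pool.Agent.Q269.Jes

open Pool.Agent.H374R2.Beal

/-- there is a solution -/
def Sol (f g : ℕ) : Prop := ∃ x y z : ℕ, 0 < x ∧ 0 < y ∧ 0 < z ∧
  (f ^ 2 + g ^ 2) ^ x + (2 * f * g) ^ y = (f ^ 2 - g ^ 2) ^ z

theorem castS {f g x y z : ℕ} (hgf : g < f)
    (h : (f ^ 2 + g ^ 2) ^ x + (2 * f * g) ^ y = (f ^ 2 - g ^ 2) ^ z) (p : ℕ) :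
    ((f : ZMod p) ^ 2 + (g : ZMod p) ^ 2) ^ x + (2 * (f : ZMod p) * (g : ZMod p)) ^ y =
      ((f : ZMod p) ^ 2 - (g : ZMod p) ^ 2) ^ z := by
  have hle : g ^ 2 ≤ f ^ 2 := Nat.pow_le_pow_left hgf.le 2
  have h1 := congrArg (Nat.cast : ℕ → ZMod p) h
  push_cast [hle] at h1
  exact h1

theorem two_ne {p : ℕ} (hp : p.Prime) (h : p ≠ 2) : (2 : ZMod p) ≠ 0 := by
  intro h0
  have : ((2 : ℕ) : ZMod p) = 0 := by exact_mod_cast h0
  rw [ZMod.natCast_eq_zero_iff, Nat.prime_dvd_prime_iff_eq hp Nat.prime_two] at this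
  exact h this

/-- a prime factor `7 mod 8` of `f - g` -/
theorem no_sol_seven {f g p : ℕ} (hco : f.Coprime g) (hgf : g < f) (hp : p.Prime) (hp8 : p % 8 = 7)
    (hfg : (f : ZMod p) = g) : ¬ Sol f g := by
  rintro ⟨x, y, z, hx, hy, hz, h⟩
  have : Fact p.Prime := ⟨hp⟩
  have e := castS hgf h p
  have hg0 : (g : ZMod p) ≠ 0 := fun h0 => ne_of_co hp hco (hfg.trans h0) h0
  have h2 := two_ne hp (by omega)
  obtain ⟨s, hs⟩ : IsSquare (2 : ZMod p) := by
    rw [ZMod.exists_sq_eq_two_iff (by omega)]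
    exact Or.inr hp8
  have hs0 : s ≠ 0 := by
    rintro rfl
    rw [mul_zero] at hs
    exact h2 hs
  rw [hfg, sub_self, zero_pow hz.ne'] at e
  have e1 : (g : ZMod p) ^ 2 + (g : ZMod p) ^ 2 = (s * g) ^ 2 := by linear_combination (g : ZMod p) ^ 2 * hs
  have e2 : 2 * (g : ZMod p) * (g : ZMod p) = (s * g) ^ 2 := by linear_combination (g : ZMod p) ^ 2 * hs
  rw [e1, e2, ← pow_mul, ← pow_mul, mul_comm 2 x, mul_comm 2 y, pow_mul, pow_mul] at e
  have e3 : ((s * g) ^ x) ^ 2 = -((s * g) ^ y) ^ 2 := by linear_combination e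
  exact ZMod.mod_four_ne_three_of_sq_eq_neg_sq' (pow_ne_zero y (mul_ne_zero hs0 hg0)) e3 (by omega)

/-- `z` is even -/
theorem z_even {f g p x y z : ℕ} (hco : f.Coprime g) (hgf : g < f) (hy : 0 < y)
    (h : (f ^ 2 + g ^ 2) ^ x + (2 * f * g) ^ y = (f ^ 2 - g ^ 2) ^ z) (hp : p.Prime)
    (hp4 : p % 4 = 3) (hf : (f : ZMod p) = 0) : Even z := by
  have : Fact p.Prime := ⟨hp⟩
  by_contra hz
  rw [Nat.not_even_iff_odd] at hz
  have e := castS hgf h p
  have hg0 := ne_of_co hp hco hf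
  rw [hf, zero_pow two_ne_zero, zero_add, mul_zero, zero_mul, zero_pow hy.ne', add_zero, zero_sub,
    hz.neg_pow, ← pow_mul, ← pow_mul, mul_comm 2 x, mul_comm 2 z, pow_mul, pow_mul] at e
  exact ZMod.mod_four_ne_three_of_sq_eq_neg_sq' (pow_ne_zero z hg0) e hp4

/-- `x` is odd -/
theorem x_odd {f g p x y z : ℕ} (hco : f.Coprime g) (hgf : g < f) (hz : 0 < z)
    (h : (f ^ 2 + g ^ 2) ^ x + (2 * f * g) ^ y = (f ^ 2 - g ^ 2) ^ z) (hp : p.Prime)
    (hp8 : p % 8 = 3) (hfg : (f : ZMod p) = -g) : Odd x := by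
  have : Fact p.Prime := ⟨hp⟩
  by_contra hx
  rw [Nat.not_odd_iff_even] at hx
  obtain ⟨m, rfl⟩ := even_iff_two_dvd.1 hx
  have e := castS hgf h p
  have hg0 : (g : ZMod p) ≠ 0 := fun h0 => ne_of_co hp hco (by rw [hfg, h0, neg_zero]) h0
  have h2 := two_ne hp (by omega)
  obtain ⟨s, hs⟩ : IsSquare (-2 : ZMod p) := by
    rw [ZMod.exists_sq_eq_neg_two_iff (by omega)]
    exact Or.inr hp8
  have hs0 : s ≠ 0 := by
    rintro rfl
    rw [mul_zero, neg_eq_zero] at hs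
    exact h2 hs
  rw [hfg, neg_sq, sub_self, zero_pow hz.ne'] at e
  have e2 : 2 * -(g : ZMod p) * (g : ZMod p) = (s * g) ^ 2 := by linear_combination (g : ZMod p) ^ 2 * hs
  have e4 : ((g : ZMod p) ^ 2 + (g : ZMod p) ^ 2) ^ (2 * m) =
      (((g : ZMod p) ^ 2 + (g : ZMod p) ^ 2) ^ m) ^ 2 := by rw [mul_comm 2 m, pow_mul]
  have e5 : ((s * (g : ZMod p)) ^ 2) ^ y = ((s * g) ^ y) ^ 2 := by
    rw [← pow_mul, mul_comm 2 y, pow_mul]
  rw [e2, e4, e5] at e
  have e3 : (((g : ZMod p) ^ 2 + (g : ZMod p) ^ 2) ^ m) ^ 2 = -((s * g) ^ y) ^ 2 := by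
    linear_combination e
  exact ZMod.mod_four_ne_three_of_sq_eq_neg_sq' (pow_ne_zero y (mul_ne_zero hs0 hg0)) e3 (by omega)

/-- `x = z` modulo 2 -/
theorem x_mod_z {f g p x y z m s d : ℕ} (hco : f.Coprime g) (hgf : g < f) (hy : 0 < y)
    (h : (f ^ 2 + g ^ 2) ^ x + (2 * f * g) ^ y = (f ^ 2 - g ^ 2) ^ z) (hp : p.Prime)
    (hT : 2 ^ (m + 3) ∣ p - 1) (hs : ¬ IsSquare ((s : ℕ) : ZMod p)) (hd : d = s ^ 2 ^ m)
    (hg : (g : ZMod p) = 0) (hf : (f : ZMod p) = d) : x ≡ z [MOD 2] := by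
  have : Fact p.Prime := ⟨hp⟩
  have e := castS hgf h p
  rw [hg, zero_pow two_ne_zero, add_zero, mul_zero, zero_pow hy.ne', add_zero, sub_zero, hf, hd] at e
  push_cast at e
  rw [← pow_mul, ← pow_mul, ← pow_mul, ← pow_mul] at e
  have hs0 : ((s : ℕ) : ZMod p) ≠ 0 := by
    intro h0
    apply hs
    rw [h0]
    exact ⟨0, by rw [mul_zero]⟩
  have hp2 : p ≠ 2 := by
    rintro rfl
    have := Nat.le_of_dvd (by norm_num) hT
    have h5 : 2 ^ 1 < 2 ^ (m + 3) := Nat.pow_lt_pow_right (by norm_num) (by omega)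
    omega
  have h4 : ((s : ℕ) : ZMod p) ^ ((p - 1) / 4) ≠ 1 := by
    intro h4
    apply hs
    rw [ZMod.euler_criterion p hs0]
    have hodd := hp.eq_two_or_odd.resolve_left hp2
    have h44 : 4 ∣ p - 1 := (show (4 : ℕ) ∣ 2 ^ (m + 3) from ⟨2 ^ (m + 1), by ring⟩).trans hT
    have : p / 2 = (p - 1) / 4 * 2 := by omega
    rw [this, pow_mul, h4, one_pow]
  have h5 := pow_modEq (T := m + 2) hs0 h4 hT e
  have e1 : ∀ n : ℕ, 2 ^ m * (2 * n) = 2 ^ (m + 1) * n := fun n => by ring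
  rw [e1, e1, show 2 ^ (m + 2) = 2 ^ (m + 1) * 2 by ring] at h5
  exact Nat.ModEq.mul_left_cancel' (by positivity) h5

/-- the criterion -/
theorem no_sol {f g p q r m s d : ℕ} (hco : f.Coprime g) (hgf : g < f) (hp : p.Prime)
    (hp4 : p % 4 = 3) (hf : (f : ZMod p) = 0) (hr : r.Prime) (hr8 : r % 8 = 3)
    (hfg : (f : ZMod r) = -g) (hq : q.Prime) (hT : 2 ^ (m + 3) ∣ q - 1)
    (hs : ¬ IsSquare ((s : ℕ) : ZMod q)) (hd : d = s ^ 2 ^ m)
    (hg : (g : ZMod q) = 0) (hfd : (f : ZMod q) = d) : ¬ Sol f g := by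
  rintro ⟨x, y, z, hx, hy, hz, h⟩
  have h1 := z_even hco hgf hy h hp hp4 hf
  have h2 := x_odd hco hgf hz h hr hr8 hfg
  have h3 := x_mod_z hco hgf hy h hq hT hs hd hg hfd
  unfold Nat.ModEq at h3
  rw [Nat.even_iff] at h1
  rw [Nat.odd_iff] at h2
  omega

/-- `d = s ^ (2 ^ m)` with a nonsquare `s` -/
theorem exists_root : ∀ n d : ℕ, d ≤ n → 1 < d → ∃ s m : ℕ, d = s ^ 2 ^ m ∧ ¬ IsSquare s := by
  intro n
  induction n with
  | zero => intro d h1 h2; omega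
  | succ n ih =>
    intro d h1 h2
    by_cases hd : IsSquare d
    · obtain ⟨r, hr⟩ := hd
      have hr1 : 1 < r := by
        by_contra hcon
        have : r = 0 ∨ r = 1 := by omega
        rcases this with rfl | rfl <;> omega
      have hrn : r ≤ n := by
        have : r * 2 ≤ r * r := Nat.mul_le_mul_left _ hr1
        omega
      obtain ⟨s, m, h3, h4⟩ := ih r hrn hr1
      refine ⟨s, m + 1, ?_, h4⟩
      rw [hr, h3, ← pow_add]
      congr 1
      ring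
    · exact ⟨d, 0, by simp, hd⟩

/-- a residue class of primes modulo which an odd nonsquare is a nonresidue -/
theorem exists_class {s T : ℕ} (hs : ¬ IsSquare s) (hso : Odd s) (hT : 2 ≤ T) :
    ∃ (M : ℕ) (c : ℕ), 0 < M ∧ IsUnit ((c : ℕ) : ZMod M) ∧ ∀ p : ℕ, p.Prime →
      ((p : ℕ) : ZMod M) = c → 2 ^ T ∣ p - 1 ∧ ¬ IsSquare ((s : ℕ) : ZMod p) := by
  have hs0 : s ≠ 0 := by rintro rfl; exact hs ⟨0, rfl⟩
  -- a prime with odd exponent
  obtain ⟨q, hq, ho⟩ : ∃ q : ℕ, q.Prime ∧ Odd (s.factorization q) := by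
    by_contra hcon
    push Not at hcon
    apply hs
    refine ⟨∏ q ∈ s.primeFactors, q ^ (s.factorization q / 2), ?_⟩
    rw [← Finset.prod_mul_distrib]
    conv_lhs => rw [← Nat.prod_factorization_pow_eq_self hs0]
    rw [Finsupp.prod, Nat.support_factorization]
    apply Finset.prod_congr rfl
    intro q hq
    rw [← pow_add]
    congr 1
    have := hcon q (Nat.prime_of_mem_primeFactors hq)
    rw [Nat.not_odd_iff_even] at this
    obtain ⟨a, ha⟩ := this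
    omega
  have : Fact q.Prime := ⟨hq⟩
  have hqs : q ∣ s := by
    by_contra hcon
    rw [Nat.factorization_eq_zero_of_not_dvd hcon] at ho
    simp at ho
  have hq2 : q ≠ 2 := by
    rintro rfl
    rw [← Nat.not_even_iff_odd] at hso
    exact hso (even_iff_two_dvd.2 hqs)
  set e := s.factorization q with he
  obtain ⟨t, htt⟩ : ∃ t, t = s / q ^ e := ⟨_, rfl⟩
  have ht : s = q ^ e * t := by
    rw [htt]
    exact (Nat.ordProj_mul_ordCompl_eq_self s q).symm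
  have hqt : ¬ q ∣ t := by
    rw [htt]
    exact Nat.not_dvd_ordCompl hq hs0
  have ht0 : t ≠ 0 := by rintro rfl; rw [mul_zero] at ht; exact hs0 ht
  have hto : Odd t := by
    rw [ht] at hso
    exact (Nat.odd_mul.1 hso).2
  obtain ⟨a, ha⟩ := FiniteField.exists_nonsquare (F := ZMod q) (by
    rw [ZMod.ringChar_zmod_n]
    exact hq2)
  have hcop : Nat.Coprime q (2 ^ T * t) := by
    apply Nat.Coprime.mul_right
    · exact Nat.Coprime.pow_right _ ((Nat.coprime_primes hq Nat.prime_two).2 hq2)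
    · exact (Nat.Prime.coprime_iff_not_dvd hq).2 hqt
  obtain ⟨c, hc1, hc2⟩ := Nat.chineseRemainder hcop a.val 1
  refine ⟨q * (2 ^ T * t), c, Nat.mul_pos hq.pos (Nat.mul_pos (by positivity)
    (Nat.pos_of_ne_zero ht0)), ?_, ?_⟩
  · rw [ZMod.isUnit_iff_coprime]
    apply Nat.Coprime.mul_right
    · rw [Nat.coprime_comm, Nat.Prime.coprime_iff_not_dvd hq]
      intro h1
      have h2 : (c : ZMod q) = 0 := (ZMod.natCast_eq_zero_iff _ _).2 h1
      have h3 : (c : ZMod q) = ((a.val : ℕ) : ZMod q) := (ZMod.natCast_eq_natCast_iff _ _ _).2 hc1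
      rw [h2, ZMod.natCast_val, ZMod.cast_id] at h3
      apply ha
      rw [← h3]
      exact ⟨0, by rw [mul_zero]⟩
    · have := hc2.gcd_eq
      rw [Nat.gcd_one_left] at this
      exact this
  · intro p hp hpc
    have : Fact p.Prime := ⟨hp⟩
    rw [ZMod.natCast_eq_natCast_iff] at hpc
    have h1 : p ≡ 1 [MOD 2 ^ T * t] := (hpc.of_dvd (dvd_mul_left _ _)).trans hc2
    have h2 : p ≡ a.val [MOD q] := (hpc.of_dvd (dvd_mul_right _ _)).trans hc1
    have h3 : p ≡ 1 [MOD 2 ^ T] := h1.of_dvd (dvd_mul_right _ _)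
    have h4 : p ≡ 1 [MOD t] := h1.of_dvd (dvd_mul_left _ _)
    have h5 : 2 ^ T ∣ p - 1 := (Nat.modEq_iff_dvd' hp.one_lt.le).1 h3.symm
    refine ⟨h5, ?_⟩
    have h6 : p % 4 = 1 := by
      have : p ≡ 1 [MOD 4] := h3.of_dvd (by
        obtain ⟨T', rfl⟩ := Nat.exists_eq_add_of_le hT
        exact ⟨2 ^ T', by ring⟩)
      exact this
    have j1 : jacobiSym (p : ℤ) q = -1 := by
      rw [← jacobiSym.legendreSym.to_jacobiSym]
      rw [legendreSym.eq_neg_one_iff]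
      have : ((p : ℤ) : ZMod q) = a := by
        have h7 : ((p : ℕ) : ZMod q) = ((a.val : ℕ) : ZMod q) :=
          (ZMod.natCast_eq_natCast_iff _ _ _).2 h2
        rw [Int.cast_natCast, h7, ZMod.natCast_val, ZMod.cast_id]
      rw [this]
      exact ha
    have j2 : jacobiSym (p : ℤ) t = 1 := by
      rw [jacobiSym.mod_left]
      have : (p : ℤ) % t = 1 % t := by exact_mod_cast h4
      rw [this, ← jacobiSym.mod_left, jacobiSym.one_left]
    have j3 : jacobiSym (p : ℤ) s = -1 := by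
      have : NeZero t := ⟨ht0⟩
      rw [ht, jacobiSym.mul_right' _ (pow_ne_zero _ hq.ne_zero) ht0, j2, mul_one,
        jacobiSym.pow_right, j1, ho.neg_one_pow]
    have j4 : jacobiSym (s : ℤ) p = -1 := by
      rw [← jacobiSym.quadratic_reciprocity_one_mod_four h6 hso]
      exact j3
    rw [← jacobiSym.legendreSym.to_jacobiSym, legendreSym.eq_neg_one_iff'] at j4
    exact j4

/-- a one-dimensional sieve -/
theorem null_line {q : ℕ} [NeZero q] {a : ZMod q} (ha : IsUnit a) (P : ℕ) (b : ∀ r : ℕ, ZMod r) :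
    UniformNull {w : ℕ × ℕ | ∀ r : ℕ, r.Prime → (r : ZMod q) = a → P < r → (w.1 : ZMod r) ≠ b r} := by
  refine (null_gen {r : ℕ | r.Prime ∧ (r : ZMod q) = a ∧ P < r} (fun r hr => hr.1) (div_ap ha P)
    (fun r => {w | w.1 = b r}) 1 one_pos ?_).mono ?_
  · intro r hr
    have hr1 : r.Prime := hr.1
    have : NeZero r := ⟨hr1.ne_zero⟩
    have h1 : Set.ncard {w : ZMod r × ZMod r | w.1 = b r} = r := by
      have : {w : ZMod r × ZMod r | w.1 = b r} = (fun v : ZMod r => (b r, v)) '' Set.univ := by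
        ext ⟨u, v⟩
        simp [eq_comm]
      rw [this, Set.ncard_image_of_injective _ (fun a b h => (Prod.mk.inj h).2), Set.ncard_univ,
        Nat.card_eq_fintype_card, ZMod.card]
    rw [h1, one_mul]
  · rintro ⟨f, g⟩ h r ⟨hr, hr4, hkr⟩ h0
    exact h r hr hr4 hkr h0

/-- from the uniformly null sets to density zero on a line -/
theorem line_of_null {S : Set (ℕ × ℕ)} {E : Set ℕ} (hS : UniformNull S) (h : ∀ g ∈ E, ∀ v, (g, v) ∈ S)
    {ε : ℝ} (hε : 0 < ε) : ∃ N0 : ℕ, ∀ N : ℕ, N0 ≤ N → ((E ∩ Set.Ioc 0 N).ncard : ℝ) ≤ ε * N := by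
  obtain ⟨L, hL⟩ := hS ε hε
  refine ⟨max L 1, fun N hN => ?_⟩
  have hN1 : 1 ≤ N := (le_max_right _ _).trans hN
  have h1 := hL N N ((le_max_left _ _).trans hN) ((le_max_left _ _).trans hN) 0 0
  have h2 : (E ∩ Set.Ioc 0 N) ×ˢ Set.Ioc 0 N ⊆
      S ∩ (Set.Ioc 0 (0 + N) ×ˢ Set.Ioc 0 (0 + N)) := by
    rintro ⟨u, v⟩ ⟨⟨h3, h4⟩, h5⟩
    refine ⟨h u h3 v, ?_, ?_⟩
    · rw [zero_add]; exact h4
    · rw [zero_add]; exact h5
  have h3 := Set.ncard_le_ncard h2 ((box_finite 0 0 N N).subset Set.inter_subset_right)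
  rw [Set.ncard_prod] at h3
  have h4 : (Set.Ioc 0 N).ncard = N := by
    rw [← Finset.coe_Ioc, Set.ncard_coe_finset, Nat.card_Ioc, Nat.sub_zero]
  rw [h4] at h3
  have h5 : ((E ∩ Set.Ioc 0 N).ncard : ℝ) * N ≤ ε * (N * N) := by
    refine le_trans ?_ h1
    exact_mod_cast h3
  have h6 : (0 : ℝ) < N := by exact_mod_cast hN1
  have h7 : ((E ∩ Set.Ioc 0 N).ncard : ℝ) * N ≤ ε * N * N := by linarith
  exact le_of_mul_le_mul_right h7 h6

/-- **each line `f = g + d`** -/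
theorem line_density {d : ℕ} (hd : Odd d) (hd1 : 1 < d) {ε : ℝ} (hε : 0 < ε) :
    ∃ N0 : ℕ, ∀ N : ℕ, N0 ≤ N →
      (({g : ℕ | (g + d).Coprime g ∧ Sol (g + d) g} ∩ Set.Ioc 0 N).ncard : ℝ) ≤ ε * N := by
  obtain ⟨s, m, hds, hs⟩ := exists_root d d le_rfl hd1
  have hso : Odd s := by
    rw [hds] at hd
    rcases Nat.even_or_odd s with h | h
    · exfalso
      have : Even (s ^ 2 ^ m) := h.pow_of_ne_zero (by positivity)
      rw [← Nat.not_even_iff_odd] at hd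
      exact hd this
    · exact h
  obtain ⟨M, c, hM, hc, hcl⟩ := exists_class (T := m + 3) hs hso (by omega)
  have : NeZero M := ⟨hM.ne'⟩
  have hu3 : IsUnit (3 : ZMod 4) := by decide
  have hu8 : IsUnit (3 : ZMod 8) := by decide
  have hnull := ((null_line hu3 0 (fun r => -(d : ZMod r))).union
    (null_line hu8 0 (fun r => -((d : ZMod r) * (((r + 1) / 2 : ℕ) : ZMod r))))).union
    (null_line hc 0 (fun r => 0))
  refine line_of_null hnull ?_ hε
  rintro g ⟨hco, hsol⟩ v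
  by_contra hcon
  rw [Set.mem_union, Set.mem_union, not_or, not_or] at hcon
  obtain ⟨⟨c1, c2⟩, c3⟩ := hcon
  simp only [Set.mem_ofPred_eq, not_forall, not_not] at c1 c2 c3
  obtain ⟨p, hp, hp4, -, hgp⟩ := c1
  obtain ⟨r, hr, hr8, -, hgr⟩ := c2
  obtain ⟨q, hq, hqc, -, hgq⟩ := c3
  have hp4' : p % 4 = 3 := by
    have : ((p : ℕ) : ZMod 4) = ((3 : ℕ) : ZMod 4) := by exact_mod_cast hp4
    rw [ZMod.natCast_eq_natCast_iff'] at this
    exact this
  have hr8' : r % 8 = 3 := by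
    have : ((r : ℕ) : ZMod 8) = ((3 : ℕ) : ZMod 8) := by exact_mod_cast hr8
    rw [ZMod.natCast_eq_natCast_iff'] at this
    exact this
  obtain ⟨hT, hsq⟩ := hcl q hq hqc
  have hr' : Fact r.Prime := ⟨hr⟩
  refine no_sol (f := g + d) hco (by omega) hp hp4' ?_ hr hr8' ?_ hq hT hsq hds hgq ?_ hsol
  · push_cast
    rw [hgp]
    ring
  · have h21 : (2 : ZMod r) * (((r + 1) / 2 : ℕ) : ZMod r) = 1 := by
      have h22 : 2 * ((r + 1) / 2) = r + 1 := by omega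
      have h23 : ((2 * ((r + 1) / 2) : ℕ) : ZMod r) = ((r + 1 : ℕ) : ZMod r) := by rw [h22]
      rw [Nat.cast_mul, Nat.cast_add, ZMod.natCast_self, zero_add, Nat.cast_one] at h23
      exact h23
    rw [Nat.cast_add, hgr]
    linear_combination -(d : ZMod r) * h21
  · push_cast
    rw [hgq, zero_add]

/-- **the pairs** -/
theorem pair_density {ε : ℝ} (hε : 0 < ε) : ∃ N0 : ℕ, ∀ N : ℕ, N0 ≤ N →
    (({w : ℕ × ℕ | w.1.Coprime w.2 ∧ w.2 < w.1 ∧ Sol w.1 w.2} ∩ Bx N).ncard : ℝ) ≤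
      ε * (N : ℝ) ^ 2 := by
  have hu : IsUnit (7 : ZMod 8) := by decide
  have hnull := null_gen {r : ℕ | r.Prime ∧ (r : ZMod 8) = 7 ∧ 0 < r} (fun r hr => hr.1)
    (div_ap hu 0) (fun r => {w | w.1 = w.2}) 1 one_pos (by
      intro r hr
      have hr1 : r.Prime := hr.1
      have : NeZero r := ⟨hr1.ne_zero⟩
      have h1 : Set.ncard {w : ZMod r × ZMod r | w.1 = w.2} = r := by
        have : {w : ZMod r × ZMod r | w.1 = w.2} = (fun v : ZMod r => (v, v)) '' Set.univ := by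
          ext ⟨u, v⟩
          simp
        rw [this, Set.ncard_image_of_injective _ (fun a b h => (Prod.mk.inj h).2), Set.ncard_univ,
          Nat.card_eq_fintype_card, ZMod.card]
      rw [h1, one_mul])
  refine null_box (hnull.mono ?_) hε
  rintro ⟨f, g⟩ ⟨hco, hgf, hsol⟩ r ⟨hr, hr8, -⟩ h0
  have hr8' : r % 8 = 7 := by
    have : ((r : ℕ) : ZMod 8) = ((7 : ℕ) : ZMod 8) := by exact_mod_cast hr8
    rw [ZMod.natCast_eq_natCast_iff'] at this
    exact this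
  exact no_sol_seven hco hgf hr hr8' h0 hsol

end Pool.Agent.Q269.Jes
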