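import Pool.Agent.H374R2.BealDens
import Pool.Agent.Helper379.Div3

/-!
# A simple sieve for pairs
-/

set_option autoImplicit false

namespace Pool.Agent.Q269.Jes

open Pool.Agent.H374R2.Beal

/-- If `∑_{r ∈ R} 1/r = ∞` and each `T r ⊆ (ℤ/r)²` has at least `c r` elements, then
the pairs `(u, v)` which are in no `T r` modulo `r ∈ R` are uniformly null. -/
theorem null_gen (R : Set ℕ) (hR : ∀ r ∈ R, r.Prime)
    (hdiv : ¬ Summable (fun r : ℕ => R.indicator (fun n : ℕ => (1 : ℝ) / n) r))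
    (T : ∀ r : ℕ, Set (ZMod r × ZMod r)) (c : ℝ) (hc : 0 < c)
    (hT : ∀ r ∈ R, c * r ≤ (T r).ncard) :
    UniformNull {p | ∀ r ∈ R, ((p.1 : ZMod r), (p.2 : ZMod r)) ∉ T r} := by
  classical
  intro ε hε
  -- a finite set of primes with large reciprocal sum
  obtain ⟨F, hFR, hF⟩ : ∃ F : Finset ℕ, (∀ r ∈ F, r ∈ R) ∧
      Real.exp (-(c * ∑ r ∈ F, (1 : ℝ) / r)) ≤ ε / 4 := by
    have h1 : ∃ F : Finset ℕ, (-Real.log (ε / 4)) / c ≤
        ∑ r ∈ F, R.indicator (fun n : ℕ => (1 : ℝ) / n) r := by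
      by_contra hcon
      push Not at hcon
      apply hdiv
      refine summable_of_sum_le (c := (-Real.log (ε / 4)) / c) ?_ ?_
      · intro r
        apply Set.indicator_nonneg
        intro n _
        positivity
      · intro F
        exact (hcon F).le
    obtain ⟨F, hF⟩ := h1
    refine ⟨F.filter (fun r => r ∈ R), fun r hr => (Finset.mem_filter.mp hr).2, ?_⟩
    have h2 : ∑ r ∈ F, R.indicator (fun n : ℕ => (1 : ℝ) / n) r =
        ∑ r ∈ F.filter (fun r => r ∈ R), (1 : ℝ) / r := by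
      rw [Finset.sum_filter]
      apply Finset.sum_congr rfl
      intro r _
      rw [Set.indicator_apply]
    rw [h2, div_le_iff₀ hc] at hF
    have h3 : -(c * ∑ r ∈ F.filter (fun r => r ∈ R), (1 : ℝ) / r) ≤ Real.log (ε / 4) := by
      linarith
    calc _ ≤ Real.exp (Real.log (ε / 4)) := Real.exp_le_exp.mpr h3
      _ = ε / 4 := Real.exp_log (by positivity)
  have hpr : ∀ i : F, ((i : ℕ)).Prime := fun i => hR _ (hFR _ i.2)
  have hco : Pairwise fun i j : F => Nat.Coprime (i : ℕ) (j : ℕ) := by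
    intro i j hij
    exact (Nat.coprime_primes (hpr i) (hpr j)).mpr (fun h => hij (Subtype.ext h))
  have : ∀ i : F, NeZero (i : ℕ) := fun i => ⟨(hpr i).ne_zero⟩
  let S : ∀ i : F, Finset (ZMod (i : ℕ) × ZMod (i : ℕ)) := fun i =>
    Finset.univ.filter (fun p => p ∉ T i)
  obtain ⟨M, hM, B, hBcard, hB⟩ := crt_count (fun i : F => (i : ℕ)) hco S
  have hMpos : 0 < M := hM ▸ Finset.prod_pos (fun i _ => (hpr i).pos)
  have hMR : (0 : ℝ) < M := by exact_mod_cast hMpos
  -- the cardinality of `S i`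
  have hS : ∀ i : F, ((S i).card : ℝ) ≤ (i : ℝ) ^ 2 * Real.exp (-(c * ((1 : ℝ) / (i : ℕ)))) := by
    intro i
    have hi0 : (0 : ℝ) < ((i : ℕ) : ℝ) := by exact_mod_cast (hpr i).pos
    have h1 : ((Finset.univ : Finset (ZMod (i : ℕ) × ZMod (i : ℕ))).filter
        (fun p => p ∈ T i)).card = (T i).ncard := by
      rw [← Set.ncard_coe_finset]
      congr 1
      ext x
      simp
    have h3 := Finset.card_filter_add_card_filter_not
      (s := (Finset.univ : Finset (ZMod (i : ℕ) × ZMod (i : ℕ)))) (fun p => p ∈ T i)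
    rw [h1, Finset.card_univ, Fintype.card_prod, ZMod.card] at h3
    have h4 : ((S i).card : ℝ) = (i : ℝ) ^ 2 - (T i).ncard := by
      have : (((T i).ncard + (S i).card : ℕ) : ℝ) = ((((i : ℕ) * (i : ℕ)) : ℕ) : ℝ) := by
        exact_mod_cast h3
      push_cast at this
      linarith
    rw [h4]
    have h5 := hT i (hFR _ i.2)
    have h6 := Real.add_one_le_exp (-(c * ((1 : ℝ) / (i : ℕ))))
    have h7 : (i : ℝ) ^ 2 * (-(c * ((1 : ℝ) / (i : ℕ))) + 1) ≤
        (i : ℝ) ^ 2 * Real.exp (-(c * ((1 : ℝ) / (i : ℕ)))) :=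
      mul_le_mul_of_nonneg_left h6 (by positivity)
    have h8 : (i : ℝ) ^ 2 * (-(c * ((1 : ℝ) / (i : ℕ))) + 1) = (i : ℝ) ^ 2 - c * i := by
      field_simp
      ring
    linarith
  have hBle : (B.card : ℝ) ≤ (M : ℝ) ^ 2 * (ε / 4) := by
    rw [hBcard]
    push_cast
    calc ∏ i : F, ((S i).card : ℝ) ≤
        ∏ i : F, ((i : ℝ) ^ 2 * Real.exp (-(c * ((1 : ℝ) / (i : ℕ))))) :=
          Finset.prod_le_prod (fun i _ => by positivity) (fun i _ => hS i)
      _ = (M : ℝ) ^ 2 * Real.exp (-(c * ∑ r ∈ F, (1 : ℝ) / r)) := by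
          rw [Finset.prod_mul_distrib, Finset.prod_pow, hM]
          push_cast
          congr 1
          rw [← Real.exp_sum, Finset.sum_neg_distrib, ← Finset.mul_sum]
          congr 3
          exact Finset.sum_coe_sort F (fun r : ℕ => (1 : ℝ) / r)
      _ ≤ _ := mul_le_mul_of_nonneg_left hF (by positivity)
  refine ⟨M, fun X Y hX hY a b => ?_⟩
  have h1 := box_le M hMpos B {p | ∀ r ∈ R, ((p.1 : ZMod r), (p.2 : ZMod r)) ∉ T r} (by
    rintro ⟨u, v⟩ h
    apply hB
    intro i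
    simp only [S, Finset.mem_filter, Finset.mem_univ, true_and]
    exact h i (hFR _ i.2)) X Y a b
  have h2 : (((X / M + 1 : ℕ)) : ℝ) ≤ 2 * X / M := by
    have h3 : ((X / M : ℕ) : ℝ) ≤ X / M := Nat.cast_div_le
    have h4 : (1 : ℝ) ≤ X / M := by
      rw [le_div_iff₀ hMR, one_mul]; exact_mod_cast hX
    push_cast
    have : (2 : ℝ) * X / M = X / M + X / M := by ring
    linarith
  have h3 : (((Y / M + 1 : ℕ)) : ℝ) ≤ 2 * Y / M := by
    have h3 : ((Y / M : ℕ) : ℝ) ≤ Y / M := Nat.cast_div_le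
    have h4 : (1 : ℝ) ≤ Y / M := by
      rw [le_div_iff₀ hMR, one_mul]; exact_mod_cast hY
    push_cast
    have : (2 : ℝ) * Y / M = Y / M + Y / M := by ring
    linarith
  calc (({p | ∀ r ∈ R, ((p.1 : ZMod r), (p.2 : ZMod r)) ∉ T r} ∩
        (Set.Ioc a (a + X) ×ˢ Set.Ioc b (b + Y))).ncard : ℝ)
      ≤ ((B.card * ((X / M + 1) * (Y / M + 1)) : ℕ) : ℝ) := by exact_mod_cast h1
    _ = (B.card : ℝ) * ((((X / M + 1 : ℕ)) : ℝ) * (((Y / M + 1 : ℕ)) : ℝ)) := by push_cast; ring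
    _ ≤ ((M : ℝ) ^ 2 * (ε / 4)) * ((2 * X / M) * (2 * Y / M)) := by
        apply mul_le_mul hBle _ (by positivity) (by positivity)
        exact mul_le_mul h2 h3 (by positivity) (by positivity)
    _ = ε * (X * Y) := by
        field_simp
        ring

/-- the primes `> P` in a reduced residue class have divergent reciprocal sum -/
theorem div_ap {q : ℕ} [NeZero q] {a : ZMod q} (ha : IsUnit a) (P : ℕ) :
    ¬ Summable (fun r : ℕ => {r : ℕ | r.Prime ∧ (r : ZMod q) = a ∧ P < r}.indicator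
      (fun n : ℕ => (1 : ℝ) / n) r) := by
  intro hs
  apply Pool.Agent.Helper379.Div3.not_summable_inv_primes_mod ha
  refine hs.congr_cofinite ?_
  have : ∀ᶠ r : ℕ in Filter.cofinite, P < r := by
    rw [Nat.cofinite_eq_atTop]
    exact Filter.eventually_gt_atTop P
  filter_upwards [this] with r hr
  rw [Set.indicator_apply]
  simp [hr]

end Pool.Agent.Q269.Jes
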